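import Pool.Agent.R999.MinP

/-!
# Potentials of bounded densities: a local maximum principle and a scaling law
-/

set_option autoImplicit false

namespace Pool.Agent.P8H73.HS

open MeasureTheory Set Filter Topology Metric
open Pool.Agent.TH791.Cl Pool.Agent.TH791.Nw Pool.Agent.R999.Pot Pool.Agent.R999.MinP

/-- bounded measurable densities with bounded support -/
def Dn (g : E3 → ℝ) : Prop :=
  Measurable g ∧ (∃ C : ℝ, ∀ x, |g x| ≤ C) ∧ ∃ R : ℝ, ∀ x, R ≤ ‖x‖ → g x = 0

lemma Dn.nice {g : E3 → ℝ} (hg : Dn g) : Nice g := by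
  obtain ⟨hm, ⟨C, hC⟩, R, hR⟩ := hg
  have hC0 : 0 ≤ C := (abs_nonneg _).trans (hC 0)
  have h1 : Integrable ((ball (0:E3) R).indicator fun _ => C) :=
    (integrable_indicator_iff measurableSet_ball).2 (integrableOn_const measure_ball_lt_top.ne)
  have h2 : Integrable ((ball (0:E3) R).indicator fun _ => C ^ (5/3 : ℝ)) :=
    (integrable_indicator_iff measurableSet_ball).2 (integrableOn_const measure_ball_lt_top.ne)
  refine ⟨hm, h1.mono' hm.aestronglyMeasurable (ae_of_all _ fun x => ?_),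
    h2.mono' (hm.abs.pow_const _).aestronglyMeasurable (ae_of_all _ fun x => ?_)⟩
  · by_cases hx : x ∈ ball (0:E3) R
    · rw [indicator_of_mem hx]; exact hC x
    · rw [indicator_of_notMem hx, hR x (by simpa using hx)]; simp
  · rw [Real.norm_of_nonneg (by positivity)]
    by_cases hx : x ∈ ball (0:E3) R
    · rw [indicator_of_mem hx]
      exact Real.rpow_le_rpow (abs_nonneg _) (hC x) (by norm_num)
    · rw [indicator_of_notMem hx, hR x (by simpa using hx), abs_zero, Real.zero_rpow (by norm_num)]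

lemma Dn.sub {f g : E3 → ℝ} (hf : Dn f) (hg : Dn g) : Dn (fun x => f x - g x) := by
  obtain ⟨hm, ⟨C, hC⟩, R, hR⟩ := hf
  obtain ⟨hm', ⟨C', hC'⟩, R', hR'⟩ := hg
  refine ⟨hm.sub hm', ⟨C + C', fun x => ?_⟩, max R R', fun x hx => ?_⟩
  · calc |f x - g x| ≤ |f x| + |g x| := abs_sub _ _
      _ ≤ C + C' := add_le_add (hC x) (hC' x)
  · show f x - g x = 0
    rw [hR x ((le_max_left _ _).trans hx), hR' x ((le_max_right _ _).trans hx), sub_zero]

lemma Dn.add {f g : E3 → ℝ} (hf : Dn f) (hg : Dn g) : Dn (fun x => f x + g x) := by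
  obtain ⟨hm, ⟨C, hC⟩, R, hR⟩ := hf
  obtain ⟨hm', ⟨C', hC'⟩, R', hR'⟩ := hg
  refine ⟨hm.add hm', ⟨C + C', fun x => ?_⟩, max R R', fun x hx => ?_⟩
  · calc |f x + g x| ≤ |f x| + |g x| := abs_add_le _ _
      _ ≤ C + C' := add_le_add (hC x) (hC' x)
  · show f x + g x = 0
    rw [hR x ((le_max_left _ _).trans hx), hR' x ((le_max_right _ _).trans hx), add_zero]

lemma Dn.mul (c : ℝ) {f : E3 → ℝ} (hf : Dn f) : Dn (fun x => c * f x) := by
  obtain ⟨hm, ⟨C, hC⟩, R, hR⟩ := hf
  refine ⟨hm.const_mul c, ⟨|c| * C, fun x => ?_⟩, R, fun x hx => ?_⟩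
  · rw [abs_mul]; exact mul_le_mul_of_nonneg_left (hC x) (abs_nonneg _)
  · show c * f x = 0
    rw [hR x hx, mul_zero]

lemma Dn.ind {A : Set E3} (hA : MeasurableSet A) (hb : Bornology.IsBounded A) :
    Dn (A.indicator fun _ => (1:ℝ)) := by
  obtain ⟨R, hR⟩ := hb.subset_ball (0:E3)
  refine ⟨measurable_const.indicator hA, ⟨1, fun x => ?_⟩, R, fun x hx => ?_⟩
  · by_cases h : x ∈ A
    · simp [h]
    · simp [h]
  · rw [indicator_of_notMem]
    intro h
    have := hR h
    simp only [mem_ball, dist_zero_right] at this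
    linarith

lemma pot_congr {f g : E3 → ℝ} (h : f =ᵐ[volume] g) (x : E3) : pot f x = pot g x := by
  unfold pot
  exact integral_congr_ae (h.mono fun y hy => by simp only [hy])

lemma pot_mono {f g : E3 → ℝ} (hf : Nice f) (hg : Nice g) (h : ∀ᵐ x, f x ≤ g x) (x : E3) :
    pot f x ≤ pot g x := by
  obtain ⟨_, h1⟩ := nice_bound f hf
  obtain ⟨_, h2⟩ := nice_bound g hg
  unfold pot
  refine integral_mono_ae (h1 x).1 (h2 x).1 (h.mono fun y hy => ?_)
  exact div_le_div_of_nonneg_right hy (norm_nonneg _)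

/-- averages over balls, when the density is nonpositive -/
lemma avg_sub {g : E3 → ℝ} (hg : Nice g) (x0 : E3) {s : ℝ} (hs : 0 < s)
    (h : ∀ᵐ y, y ∈ ball x0 s → g y ≤ 0) :
    (volume (ball x0 s)).toReal * pot g x0 ≤ ∫ x in ball x0 s, pot g x := by
  have h1 := (avg_pot (fun y => -g y) (nice_neg hg) x0 s hs (by
    filter_upwards [h] with y hy hyb
    have := hy hyb
    linarith)).2
  have h2 : ∀ x, pot (fun y => -g y) x = -pot g x := fun x => pot_neg g x
  simp only [h2] at h1
  rw [integral_neg] at h1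
  linarith

/-- a local maximum principle in a ball -/
theorem max_loc {g : E3 → ℝ} (hg : Nice g) (c : ℝ) {R : ℝ}
    (hbd : ∀ x : E3, ‖x‖ = R → pot g x + c ≤ 0)
    (h : ∀ᵐ x : E3, ‖x‖ < R → 0 < pot g x + c → g x ≤ 0) {x1 : E3} (hx1 : ‖x1‖ < R) :
    pot g x1 + c ≤ 0 := by
  by_contra hcon
  push Not at hcon
  have hc := pot_cont hg
  obtain ⟨x0, hx0, hmax⟩ := (isCompact_closedBall (0:E3) R).exists_isMaxOn
    ⟨x1, by simpa using hx1.le⟩ hc.continuousOn
  have hM : pot g x1 ≤ pot g x0 := hmax (show x1 ∈ closedBall (0:E3) R by simpa using hx1.le)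
  set A : Set E3 := {x | ‖x‖ ≤ R ∧ pot g x = pot g x0} with hA
  have hpos : 0 < pot g x0 + c := by linarith
  have hclosed : IsClosed A :=
    (isClosed_le continuous_norm continuous_const).inter (isClosed_eq hc continuous_const)
  have hopen : IsOpen A := by
    rw [Metric.isOpen_iff]
    intro a ha
    obtain ⟨haR, ha'⟩ := ha
    have haR' : ‖a‖ < R := by
      refine lt_of_le_of_ne haR fun he => ?_
      have := hbd a he
      rw [ha'] at this
      linarith
    have hnb : {x : E3 | ‖x‖ < R ∧ 0 < pot g x + c} ∈ 𝓝 a := by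
      refine ((isOpen_lt continuous_norm continuous_const).inter
        (isOpen_lt continuous_const (hc.add continuous_const))).mem_nhds ⟨haR', ?_⟩
      show 0 < pot g a + c
      rw [ha']; exact hpos
    obtain ⟨s, hs, hsub⟩ := Metric.mem_nhds_iff.1 hnb
    refine ⟨s, hs, ?_⟩
    have i2 := avg_sub hg a hs (by
      filter_upwards [h] with y hy hyb
      exact hy (hsub hyb).1 (hsub hyb).2)
    have hint : IntegrableOn (pot g) (ball a s) :=
      (hc.continuousOn.integrableOn_compact (isCompact_closedBall a s)).mono_set ball_subset_closedBall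
    have hci : IntegrableOn (fun _ : E3 => pot g x0) (ball a s) :=
      integrableOn_const measure_ball_lt_top.ne
    have hle : ∀ x ∈ ball a s, pot g x ≤ pot g x0 := fun x hx =>
      hmax (show x ∈ closedBall (0:E3) R by simpa using (hsub hx).1.le)
    have hnn : 0 ≤ᵐ[volume.restrict (ball a s)] fun x => pot g x0 - pot g x := by
      filter_upwards [ae_restrict_mem measurableSet_ball] with x hx
      exact sub_nonneg.2 (hle x hx)
    have hz : ∫ x in ball a s, (pot g x0 - pot g x) = 0 := by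
      have h1 : 0 ≤ ∫ x in ball a s, (pot g x0 - pot g x) := integral_nonneg_of_ae hnn
      have h2 : ∫ x in ball a s, (pot g x0 - pot g x) =
          (volume (ball a s)).toReal * pot g x0 - (∫ x in ball a s, pot g x) := by
        rw [integral_sub hci hint, setIntegral_const]
        simp [Measure.real]
      rw [h2] at h1 ⊢
      rw [ha'] at i2
      linarith
    have hae := (integral_eq_zero_iff_of_nonneg_ae hnn (hci.sub hint)).1 hz
    have heq : EqOn (pot g) (fun _ => pot g x0) (ball a s) := by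
      refine Measure.eqOn_open_of_ae_eq (μ := volume) ?_ isOpen_ball hc.continuousOn
        continuousOn_const
      filter_upwards [hae] with x hx
      have : pot g x0 - pot g x = 0 := hx
      linarith
    exact fun x hx => ⟨(hsub hx).1.le, heq hx⟩
  have huniv : A = univ := IsClopen.eq_univ ⟨hclosed, hopen⟩ ⟨x0, by simpa using hx0, rfl⟩
  have h3 : (EuclideanSpace.single 0 (|R| + 1) : E3) ∈ A := by rw [huniv]; trivial
  have h4 := h3.1
  rw [PiLp.norm_single, Real.norm_of_nonneg (by positivity)] at h4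
  have := le_abs_self R
  linarith

/-- the dilation with centre `x0` and factor `s` -/
def dil (x0 : E3) (s : ℝ) (y : E3) : E3 := x0 + s • (y - x0)

lemma dil_cont (x0 : E3) (s : ℝ) : Continuous (dil x0 s) := by
  unfold dil; fun_prop

lemma dil_int (F : E3 → ℝ) (x0 : E3) {s : ℝ} (hs : 0 < s) :
    ∫ y, F (dil x0 s y) = (s ^ 3)⁻¹ * ∫ z, F z := by
  have h1 : ∫ y, F (dil x0 s y) = ∫ y, F (x0 + s • y) := by
    have := integral_sub_right_eq_self (μ := (volume : Measure E3)) (fun y => F (x0 + s • y)) x0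
    rw [← this]
    rfl
  rw [h1, Measure.integral_comp_smul volume (fun y => F (x0 + y)) s]
  rw [integral_add_left_eq_self (fun y => F y) x0]
  have hfr : Module.finrank ℝ E3 = 3 := finrank_euclideanSpace_fin
  rw [hfr, abs_of_pos (by positivity), smul_eq_mul]

lemma dil_ae {P : E3 → Prop} (h : ∀ᵐ x, P x) (x0 : E3) {s : ℝ} (hs : 0 < s) :
    ∀ᵐ x, P (dil x0 s x) := by
  have hqmp : Measure.QuasiMeasurePreserving (dil x0 s) volume volume := by
    have h1 : Measure.QuasiMeasurePreserving (fun y : E3 => y - x0) volume volume :=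
      (measurePreserving_sub_right volume x0).quasiMeasurePreserving
    have h2 : Measure.QuasiMeasurePreserving (fun y : E3 => s • y) volume volume := by
      refine ⟨measurable_const_smul s, ?_⟩
      rw [Measure.map_addHaar_smul volume hs.ne']
      exact Measure.smul_absolutelyContinuous
    have h3 : Measure.QuasiMeasurePreserving (fun y : E3 => x0 + y) volume volume :=
      (measurePreserving_add_left volume x0).quasiMeasurePreserving
    exact h3.comp (h2.comp h1)
  exact hqmp.ae h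

lemma Dn.dil {g : E3 → ℝ} (hg : Dn g) (x0 : E3) {s : ℝ} (hs : 0 < s) :
    Dn (fun x => g (dil x0 s x)) := by
  obtain ⟨hm, ⟨C, hC⟩, R, hR⟩ := hg
  refine ⟨hm.comp (dil_cont x0 s).measurable, ⟨C, fun x => hC _⟩, ‖x0‖ + (R + ‖x0‖) / s, fun x hx => hR _ ?_⟩
  have h1 : s * ‖x - x0‖ ≤ ‖HS.dil x0 s x‖ + ‖x0‖ := by
    have : s • (x - x0) = HS.dil x0 s x - x0 := by unfold HS.dil; abel
    have h0 : s * ‖x - x0‖ = ‖s • (x - x0)‖ := by
      rw [norm_smul, Real.norm_of_nonneg hs.le]
    rw [h0, this]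
    exact norm_sub_le _ _
  have h2 : ‖x‖ - ‖x0‖ ≤ ‖x - x0‖ := norm_sub_norm_le _ _
  have h3 : (R + ‖x0‖) / s ≤ ‖x - x0‖ := by linarith
  rw [div_le_iff₀ hs] at h3
  linarith

lemma dil_sub (x0 x y : E3) (s : ℝ) : dil x0 s x - dil x0 s y = s • (x - y) := by
  unfold dil
  module

/-- the scaling law of potentials -/
lemma pot_dil (g : E3 → ℝ) (x0 : E3) {s : ℝ} (hs : 0 < s) (x : E3) :
    pot (fun y => g (dil x0 s y)) x = pot g (dil x0 s x) / s ^ 2 := by
  have h1 : ∀ y, g (dil x0 s y) / ‖x - y‖ = s * (g (dil x0 s y) / ‖dil x0 s x - dil x0 s y‖) := by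
    intro y
    rw [dil_sub, norm_smul, Real.norm_of_nonneg hs.le]
    by_cases hxy : ‖x - y‖ = 0
    · rw [hxy]; simp
    · field_simp
  unfold pot
  simp_rw [h1]
  rw [integral_const_mul, dil_int (fun z => g z / ‖dil x0 s x - z‖) x0 hs]
  field_simp

end Pool.Agent.P8H73.HS
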