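import Pool.Agent.P8H73.HS.Obst

/-!
# The cut ball: comparison with the radial case
-/

set_option autoImplicit false

namespace Pool.Agent.P8H73.HS

open MeasureTheory Set Filter Topology Metric
open scoped RealInnerProductSpace ENNReal
open Pool.Agent.TH791.Cl Pool.Agent.TH791.Nw Pool.Agent.R999.Pot Pool.Agent.R999.MinP

/-- the cut ball -/
def dom : Set E3 := {x | ‖x‖ < 1 ∧ x 0 < 999/1000}

lemma cont0 : Continuous fun x : E3 => x 0 := by fun_prop

lemma dom_open : IsOpen dom :=
  (isOpen_lt continuous_norm continuous_const).inter (isOpen_lt cont0 continuous_const)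

lemma dom_sub : dom ⊆ ball (0:E3) 1 := fun x hx => by simpa using hx.1

lemma dom_bdd : Bornology.IsBounded dom := isBounded_ball.subset dom_sub

lemma abs_coord_le (x : E3) (i : Fin 3) : |x i| ≤ ‖x‖ := by
  have h := PiLp.norm_apply_le x i
  rwa [Real.norm_eq_abs] at h

lemma mem_dom {x : E3} (h : ‖x‖ < 999/1000) : x ∈ dom :=
  ⟨by linarith, ((le_abs_self _).trans (abs_coord_le x 0)).trans_lt h⟩

/-- the level of the potential -/
noncomputable def kap : ℝ := 3 * Real.pi / 2

/-- the density of the radial shell -/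
noncomputable def rho0 (x : E3) : ℝ :=
  (ball (0:E3) 1).indicator (fun _ => (1:ℝ)) x - (ball (0:E3) (1/2)).indicator (fun _ => (1:ℝ)) x

lemma rho0_dn : Dn rho0 :=
  (Dn.ind measurableSet_ball isBounded_ball).sub (Dn.ind measurableSet_ball isBounded_ball)

/-- the reduced radial profile -/
noncomputable def Wr (r : ℝ) : ℝ := 2/3 * r ^ 2 + 1 / (6 * r) - 1/2

lemma pot_rho0 (x : E3) : pot rho0 x =
    4/3*Real.pi*1^3 * Gf 1 ‖x‖ - 4/3*Real.pi*(1/2)^3 * Gf (1/2) ‖x‖ := by
  have h := pot_sub (Dn.ind measurableSet_ball (isBounded_ball (x := (0:E3)) (r := 1))).nice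
    (Dn.ind measurableSet_ball (isBounded_ball (x := (0:E3)) (r := 1/2))).nice x
  rw [pot_ball one_pos, pot_ball (by norm_num : (0:ℝ) < 1/2), sub_zero] at h
  exact h

lemma pot_rho0_in {x : E3} (hx : ‖x‖ ≤ 1/2) : pot rho0 x = kap := by
  rw [pot_rho0]
  unfold Gf kap
  have h0 := norm_nonneg x
  rw [if_pos (by linarith)]
  split_ifs with h
  · field_simp
    ring
  · have : ‖x‖ = 1/2 := by linarith
    rw [this]
    field_simp
    ring

lemma pot_rho0_mid {x : E3} (h1 : 1/2 ≤ ‖x‖) (h2 : ‖x‖ < 1) :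
    kap - pot rho0 x = Real.pi * Wr ‖x‖ := by
  rw [pot_rho0]
  unfold Gf kap Wr
  rw [if_pos h2, if_neg (by linarith)]
  have : 0 < ‖x‖ := by linarith
  field_simp
  ring

lemma pot_rho0_out {x : E3} (h1 : 1/2 < ‖x‖) : pot rho0 x < kap := by
  have hpi := Real.pi_pos
  rcases lt_or_ge ‖x‖ 1 with h2 | h2
  · have h3 := pot_rho0_mid h1.le h2
    have h4 : 0 < Wr ‖x‖ := by
      have h5 : Wr ‖x‖ = (2 * ‖x‖ - 1) ^ 2 * (‖x‖ + 1) / (6 * ‖x‖) := by
        unfold Wr
        have : 0 < ‖x‖ := by linarith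
        field_simp
        ring
      rw [h5]
      have : 0 < 2 * ‖x‖ - 1 := by linarith
      have : 0 < ‖x‖ := by linarith
      positivity
    have := mul_pos hpi h4
    linarith
  · rw [pot_rho0]
    unfold Gf kap
    rw [if_neg (by linarith), if_neg (by linarith)]
    have h3 : 1 / ‖x‖ ≤ 1 := by
      rw [div_le_one (by linarith)]; exact h2
    nlinarith

lemma pot_rho0_le (x : E3) : pot rho0 x ≤ kap := by
  rcases le_or_gt ‖x‖ (1/2) with h | h
  · exact (pot_rho0_in h).le
  · exact (pot_rho0_out h).le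

/-- the solution of the obstacle problem in the cut ball -/
structure Sol (ρ : E3 → ℝ) : Prop where
  adm : Adm dom ρ
  le : ∀ x, pot ρ x ≤ kap
  full : ∀ᵐ x, x ∈ dom → pot ρ x < kap → ρ x = 1

lemma exists_sol : ∃ ρ, Sol ρ := by
  obtain ⟨ρ, h1, h2, h3⟩ := exists_obst dom_open.measurableSet dom_bdd (κ := kap)
    (by unfold kap; have := Real.pi_pos; positivity)
  exact ⟨ρ, h1, h2, h3⟩

/-- the density of the cap -/
noncomputable def capd (x : E3) : ℝ :=
  (ball (0:E3) 1).indicator (fun _ => (1:ℝ)) x - dom.indicator (fun _ => (1:ℝ)) x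

lemma capd_dn : Dn capd :=
  (Dn.ind measurableSet_ball isBounded_ball).sub (Dn.ind dom_open.measurableSet dom_bdd)

lemma capd_small (x : E3) : pot capd x ≤ Real.pi / 200 := by
  set e1 : E3 := EuclideanSpace.single 0 1 with he1
  have hball : Dn ((ball e1 (1/20)).indicator fun _ => (1:ℝ)) := Dn.ind measurableSet_ball isBounded_ball
  have h1 : ∀ y, capd y ≤ (ball e1 (1/20)).indicator (fun _ => (1:ℝ)) y := by
    intro y
    unfold capd
    by_cases hy : y ∈ ball (0:E3) 1
    · rw [indicator_of_mem hy]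
      by_cases hd : y ∈ dom
      · rw [indicator_of_mem hd, sub_self]
        exact indicator_nonneg (fun _ _ => zero_le_one) _
      · rw [indicator_of_notMem hd, sub_zero]
        have hy1 : ‖y‖ < 1 := by simpa using hy
        have hy0 : 999/1000 ≤ y 0 := by
          by_contra hc
          push Not at hc
          exact hd ⟨hy1, hc⟩
        have hmem : y ∈ ball e1 (1/20) := by
          rw [mem_ball, dist_eq_norm]
          have h2 : ‖y - e1‖ ^ 2 = ‖y‖ ^ 2 - 2 * y 0 + 1 := by
            rw [norm_sub_sq_real, he1, EuclideanSpace.inner_single_right, PiLp.norm_single]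
            simp
          have h3 : ‖y - e1‖ ^ 2 < (1/20) ^ 2 := by
            rw [h2]
            nlinarith [norm_nonneg y]
          exact lt_of_pow_lt_pow_left₀ 2 (by norm_num) h3
        rw [indicator_of_mem hmem]
    · have hd : y ∉ dom := fun h => hy (dom_sub h)
      rw [indicator_of_notMem hy, indicator_of_notMem hd, sub_self]
      exact indicator_nonneg (fun _ _ => zero_le_one) _
  refine (pot_mono capd_dn.nice hball.nice (ae_of_all _ h1) x).trans ?_
  rw [pot_ball (by norm_num)]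
  have h2 := Gf_le (s := 1/20) (r := ‖x - e1‖) (by norm_num)
  have hpi := Real.pi_pos
  calc 4/3*Real.pi*(1/20)^3 * Gf (1/20) ‖x - e1‖ ≤ 4/3*Real.pi*(1/20)^3 * (3 / (2 * (1/20))) :=
        mul_le_mul_of_nonneg_left h2 (by positivity)
    _ = Real.pi / 200 := by ring

variable {ρ : E3 → ℝ}

lemma Sol.dn (h : Sol ρ) : Dn ρ := h.adm.dn dom_bdd

lemma Sol.zero (h : Sol ρ) {x : E3} (hx : x ∉ dom) : ρ x = 0 := by
  have h1 := h.adm.2 x
  rw [indicator_of_notMem hx] at h1
  linarith [h1.1, h1.2]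

lemma Sol.le_one (h : Sol ρ) (x : E3) : ρ x ≤ 1 := by
  refine (h.adm.2 x).2.trans ?_
  by_cases hx : x ∈ dom <;> simp [hx]

lemma rho0_one {x : E3} (h1 : 1/2 ≤ ‖x‖) (h2 : ‖x‖ < 1) : rho0 x = 1 := by
  unfold rho0
  rw [indicator_of_mem (by simpa using h2), indicator_of_notMem (by simpa using h1)]
  simp

lemma rho0_out {x : E3} (h1 : 1 ≤ ‖x‖) : rho0 x = 0 := by
  unfold rho0
  have h2 : x ∉ ball (0:E3) 1 := by simpa using h1
  have h3 : x ∉ ball (0:E3) (1/2) := by
    simp only [mem_ball, dist_zero_right, not_lt]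
    linarith
  rw [indicator_of_notMem h2, indicator_of_notMem h3, sub_self]

lemma rho0_le (x : E3) : rho0 x ≤ 1 := by
  unfold rho0
  have h1 : (ball (0:E3) 1).indicator (fun _ => (1:ℝ)) x ≤ 1 := by
    by_cases h : x ∈ ball (0:E3) 1 <;> simp [h]
  have h2 : 0 ≤ (ball (0:E3) (1/2)).indicator (fun _ => (1:ℝ)) x :=
    indicator_nonneg (fun _ _ => zero_le_one) _
  linarith

lemma Sol.le0 (h : Sol ρ) (x : E3) : pot ρ x ≤ pot rho0 x := by
  have h1 := min_pr (g := fun x => rho0 x - ρ x) (rho0_dn.sub h.dn).nice (by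
    refine ae_of_all _ fun y hy => ?_
    rw [pot_sub rho0_dn.nice h.dn.nice] at hy
    have h2 : pot rho0 y < kap := by linarith [h.le y]
    have h3 : 1/2 < ‖y‖ := by
      by_contra hc
      push Not at hc
      rw [pot_rho0_in hc] at h2
      exact lt_irrefl _ h2
    rcases lt_or_ge ‖y‖ 1 with h4 | h4
    · rw [rho0_one h3.le h4]
      linarith [h.le_one y]
    · rw [rho0_out h4, h.zero (fun hd => by have := hd.1; linarith)]
      simp) x
  rw [pot_sub rho0_dn.nice h.dn.nice] at h1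
  linarith

lemma Sol.ge0 (h : Sol ρ) (x : E3) : pot rho0 x ≤ pot ρ x + Real.pi / 200 := by
  have h1 := min_pr (g := fun x => (ρ x + capd x) - rho0 x) ((h.dn.add capd_dn).sub rho0_dn).nice (by
    filter_upwards [h.full] with y hy hlt
    rw [pot_sub (h.dn.add capd_dn).nice rho0_dn.nice, pot_add h.dn.nice capd_dn.nice] at hlt
    have hcap : 0 ≤ pot capd y := by
      unfold pot
      refine integral_nonneg fun z => div_nonneg ?_ (norm_nonneg _)
      unfold capd
      by_cases hz : z ∈ dom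
      · rw [indicator_of_mem hz, indicator_of_mem (dom_sub hz)]; simp
      · rw [indicator_of_notMem hz, sub_zero]; exact indicator_nonneg (fun _ _ => zero_le_one) _
    have h2 : pot ρ y < kap := by linarith [pot_rho0_le y]
    by_cases hd : y ∈ dom
    · have h3 := hy hd h2
      rw [h3]
      unfold capd
      rw [indicator_of_mem hd, indicator_of_mem (dom_sub hd)]
      linarith [rho0_le y]
    · rw [h.zero hd]
      unfold capd
      rw [indicator_of_notMem hd]
      unfold rho0
      have : 0 ≤ (ball (0:E3) (1/2)).indicator (fun _ => (1:ℝ)) y :=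
        indicator_nonneg (fun _ _ => zero_le_one) _
      linarith) x
  rw [pot_sub (h.dn.add capd_dn).nice rho0_dn.nice, pot_add h.dn.nice capd_dn.nice] at h1
  linarith [capd_small x]

lemma Sol.lt (h : Sol ρ) {x : E3} (hx : 1/2 < ‖x‖) : pot ρ x < kap :=
  (h.le0 x).trans_lt (pot_rho0_out hx)

/-- the difference to the radial potential -/
noncomputable def dd (ρ : E3 → ℝ) (x : E3) : ℝ := pot (fun y => rho0 y - ρ y) x

lemma Sol.dd_eq (h : Sol ρ) (x : E3) : dd ρ x = pot rho0 x - pot ρ x :=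
  pot_sub rho0_dn.nice h.dn.nice x

lemma Sol.dd_nonneg (h : Sol ρ) (x : E3) : 0 ≤ dd ρ x := by
  rw [h.dd_eq]; linarith [h.le0 x]

lemma Sol.dd_le (h : Sol ρ) (x : E3) : dd ρ x ≤ Real.pi / 200 := by
  rw [h.dd_eq]; linarith [h.ge0 x]

lemma Sol.dd_mean (h : Sol ρ) {y : E3} {r : ℝ} (hr : 0 < r) (h1 : 1/2 ≤ ‖y‖ - r)
    (h2 : ‖y‖ + r ≤ 999/1000) :
    ∫ x in ball y r, dd ρ x = (volume (ball y r)).toReal * dd ρ y := by
  have hn : Nice (fun y => rho0 y - ρ y) := (rho0_dn.sub h.dn).nice
  have hz : ∀ᵐ x, x ∈ ball y r → rho0 x - ρ x = 0 := by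
    filter_upwards [h.full] with x hx hxb
    rw [mem_ball, dist_eq_norm] at hxb
    have h3 : ‖x‖ < 999/1000 := by
      have : ‖x‖ ≤ ‖x - y‖ + ‖y‖ := by simpa using norm_add_le (x - y) y
      linarith
    have h4 : 1/2 < ‖x‖ := by
      have : ‖y‖ ≤ ‖x‖ + ‖x - y‖ := by
        have := norm_sub_le x (x - y)
        rwa [sub_sub_cancel] at this
      linarith
    rw [hx (mem_dom h3) (h.lt h4), rho0_one h4.le (by linarith), sub_self]
  have h3 := avg_sub hn y hr (by filter_upwards [hz] with x hx hb; exact (hx hb).le)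
  have h4 := (avg_pot _ hn y r hr (by filter_upwards [hz] with x hx hb; exact (hx hb).ge)).2
  exact le_antisymm h4 h3

lemma vol_ball (y : E3) {r : ℝ} (hr : 0 ≤ r) : (volume (ball y r)).toReal = 4/3 * Real.pi * r ^ 3 := by
  rw [EuclideanSpace.volume_ball_fin_three]
  have := Real.pi_pos
  rw [← ENNReal.ofReal_pow hr, ← ENNReal.ofReal_mul (by positivity), ENNReal.toReal_ofReal (by positivity)]
  ring

lemma Sol.dd_cont (h : Sol ρ) : Continuous (dd ρ) := pot_cont (rho0_dn.sub h.dn).nice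

lemma Sol.dd_lip (h : Sol ρ) {x y : E3} (hx1 : 3/5 ≤ ‖x‖) (hx2 : ‖x‖ ≤ 4/5)
    (hy1 : 3/5 ≤ ‖y‖) (hy2 : ‖y‖ ≤ 4/5) (hxy : ‖x - y‖ ≤ 1/10) :
    dd ρ x - dd ρ y ≤ Real.pi / 200 * 30 * ‖x - y‖ := by
  have hpi := Real.pi_pos
  set r : ℝ := 1/10 with hr
  set t := ‖x - y‖ with ht
  have ht0 : 0 ≤ t := norm_nonneg _
  have mx := h.dd_mean (y := x) (r := r) (by norm_num [hr]) (by rw [hr]; linarith) (by rw [hr]; linarith)
  have my := h.dd_mean (y := y) (r := r) (by norm_num [hr]) (by rw [hr]; linarith) (by rw [hr]; linarith)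
  rw [vol_ball _ (by norm_num [hr])] at mx my
  have hint : ∀ z : E3, IntegrableOn (dd ρ) (ball z r) := fun z =>
    (h.dd_cont.continuousOn.integrableOn_compact (isCompact_closedBall z r)).mono_set ball_subset_closedBall
  have hsplit := integral_inter_add_sdiff (μ := volume) (f := dd ρ) (s := ball x r) (t := ball y r)
    measurableSet_ball (hint x)
  have h1 : ∫ z in ball x r ∩ ball y r, dd ρ z ≤ ∫ z in ball y r, dd ρ z :=
    setIntegral_mono_set (hint y) (ae_of_all _ fun z => h.dd_nonneg z)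
      (LE.le.eventuallyLE inter_subset_right)
  have h2 : ∫ z in ball x r \ ball y r, dd ρ z ≤ Real.pi / 200 * (volume (ball x r \ ball y r)).toReal := by
    have h3 : volume (ball x r \ ball y r) ≠ ∞ :=
      ((measure_mono sdiff_subset).trans_lt measure_ball_lt_top).ne
    have h4 : ∫ z in ball x r \ ball y r, dd ρ z ≤ ∫ z in ball x r \ ball y r, Real.pi / 200 :=
      setIntegral_mono_on ((hint x).mono_set sdiff_subset) (integrableOn_const h3)
        (measurableSet_ball.diff measurableSet_ball) fun z _ => h.dd_le z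
    rw [setIntegral_const] at h4
    simpa [Measure.real, mul_comm] using h4
  have h5 : (volume (ball x r \ ball y r)).toReal ≤ 4/3 * Real.pi * r ^ 3 - 4/3 * Real.pi * (r - t) ^ 3 := by
    have hsub : ball x (r - t) ⊆ ball y r := by
      apply ball_subset_ball'
      rw [dist_eq_norm]
      linarith
    have hsub2 : ball x (r - t) ⊆ ball x r := ball_subset_ball (by linarith)
    have h6 : (volume (ball x r \ ball y r)).toReal ≤ (volume (ball x r \ ball x (r - t))).toReal :=
      ENNReal.toReal_mono ((measure_mono sdiff_subset).trans_lt measure_ball_lt_top).ne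
        (measure_mono (sdiff_subset_sdiff_right hsub))
    rw [measure_sdiff hsub2 measurableSet_ball.nullMeasurableSet measure_ball_lt_top.ne,
      ENNReal.toReal_sub_of_le (measure_mono hsub2) measure_ball_lt_top.ne,
      vol_ball _ (by norm_num [hr]), vol_ball _ (by linarith)] at h6
    exact h6
  have h7 : r ^ 3 - (r - t) ^ 3 ≤ 3 * r ^ 2 * t := by
    have : r ^ 3 - (r - t) ^ 3 = 3 * r ^ 2 * t - t ^ 2 * (3 * r - t) := by ring
    have hr0 : 0 < r := by norm_num [hr]
    have h8 : 0 ≤ t ^ 2 * (3 * r - t) := mul_nonneg (sq_nonneg _) (by linarith)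
    linarith
  have h9 : 4/3 * Real.pi * r ^ 3 * dd ρ x ≤ 4/3 * Real.pi * r ^ 3 * dd ρ y +
      Real.pi / 200 * (4/3 * Real.pi * (3 * r ^ 2 * t)) := by
    rw [← mx, ← my, ← hsplit]
    have h10 : Real.pi / 200 * (volume (ball x r \ ball y r)).toReal ≤
        Real.pi / 200 * (4/3 * Real.pi * (3 * r ^ 2 * t)) := by
      apply mul_le_mul_of_nonneg_left _ (by positivity)
      refine h5.trans ?_
      have := mul_le_mul_of_nonneg_left h7 (show 0 ≤ 4/3 * Real.pi by positivity)
      linarith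
    linarith
  have h11 : 4/3 * Real.pi * r ^ 3 * (dd ρ x - dd ρ y) ≤
      4/3 * Real.pi * r ^ 3 * (Real.pi / 200 * 30 * t) := by
    have : 4/3 * Real.pi * r ^ 3 * (Real.pi / 200 * 30 * t) =
        Real.pi / 200 * (4/3 * Real.pi * (3 * r ^ 2 * t)) := by rw [hr]; ring
    rw [this]
    linarith
  exact le_of_mul_le_mul_left h11 (by positivity)

lemma Wr_mono {a b : ℝ} (ha : 1/2 ≤ a) (hab : a ≤ b) : Wr a ≤ Wr b := by
  have h0 : 0 < a := by linarith
  have h1 : 0 < b := by linarith
  have h : Wr b - Wr a = (b - a) * (4 * (a + b) * (a * b) - 1) / (6 * (a * b)) := by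
    unfold Wr
    field_simp
    ring
  have h2 : 0 ≤ 4 * (a + b) * (a * b) - 1 := by
    have h3 : 1 ≤ a + b := by linarith
    have h4 : 1/4 ≤ a * b := by nlinarith
    nlinarith
  have h5 : 0 ≤ Wr b - Wr a := by
    rw [h]
    exact div_nonneg (mul_nonneg (by linarith) h2) (by positivity)
  linarith

lemma Wr_num {t : ℝ} (h0 : 0 ≤ t) (h1 : t ≤ 1/10) :
    Wr (3/4 - 37/50 * t) + 13/50 * t ≤ (1 - t) ^ 2 * (7/72) := by
  have hu : 0 < 3/4 - 37/50 * t := by linarith
  have h2 : 1 / (6 * (3/4 - 37/50 * t)) ≤ 1/6 * (4/3 + 147/100 * t) := by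
    rw [div_le_iff₀ (by positivity)]
    nlinarith
  unfold Wr
  nlinarith

end Pool.Agent.P8H73.HS
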