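import Mathlib

/-!
# Sublevel sets of continuous positively homogeneous functions on space
-/

set_option autoImplicit false

namespace Pool.Agent.P8H73.HS

open MeasureTheory Set Filter Topology Metric
open scoped ENNReal Pointwise

/-- continuous, positively homogeneous and positive off the origin -/
structure Gau (p : EuclideanSpace ℝ (Fin 3) → ℝ) : Prop where
  cont : Continuous p
  hom : ∀ (t : ℝ), 0 ≤ t → ∀ x, p (t • x) = t * p x
  pos : ∀ x, x ≠ 0 → 0 < p x

variable {p : EuclideanSpace ℝ (Fin 3) → ℝ}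

lemma Gau.zero (h : Gau p) : p 0 = 0 := by
  have := h.hom 0 le_rfl 0
  simpa using this

lemma Gau.nonneg (h : Gau p) (x : EuclideanSpace ℝ (Fin 3)) : 0 ≤ p x := by
  by_cases hx : x = 0
  · rw [hx, h.zero]
  · exact (h.pos x hx).le

lemma Gau.isOpen (h : Gau p) : IsOpen {x | p x < 1} := isOpen_lt h.cont continuous_const

lemma Gau.isConnected (h : Gau p) : IsConnected {x | p x < 1} := by
  have h0 : (0 : EuclideanSpace ℝ (Fin 3)) ∈ {x | p x < 1} := by
    show p 0 < 1
    rw [h.zero]; exact one_pos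
  have hs : StarConvex ℝ (0 : EuclideanSpace ℝ (Fin 3)) {x | p x < 1} := by
    intro y hy a b ha hb hab
    show p (a • 0 + b • y) < 1
    rw [smul_zero, zero_add, h.hom b hb]
    have hy' : p y < 1 := hy
    have h1 := h.nonneg y
    nlinarith
  exact (hs.isPathConnected h0).isConnected

lemma Gau.lower (h : Gau p) : ∃ c : ℝ, 0 < c ∧ ∀ x, c * ‖x‖ ≤ p x := by
  obtain ⟨u, hu, hmin⟩ := (isCompact_sphere (0 : EuclideanSpace ℝ (Fin 3)) 1).exists_isMinOn
    (NormedSpace.sphere_nonempty.2 zero_le_one) h.cont.continuousOn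
  have hu1 : ‖u‖ = 1 := by simpa using hu
  have hu0 : u ≠ 0 := by
    intro h0
    rw [h0, norm_zero] at hu1
    exact zero_ne_one hu1
  refine ⟨p u, h.pos u hu0, fun x => ?_⟩
  by_cases hx : x = 0
  · rw [hx, h.zero]; simp
  · have hx' : 0 < ‖x‖ := norm_pos_iff.2 hx
    have h1 : p u ≤ p (‖x‖⁻¹ • x) := hmin (by
      rw [mem_sphere_zero_iff_norm, norm_smul, norm_inv, norm_norm, inv_mul_cancel₀ hx'.ne'])
    rw [h.hom _ (inv_nonneg.2 hx'.le)] at h1
    calc p u * ‖x‖ ≤ (‖x‖⁻¹ * p x) * ‖x‖ := mul_le_mul_of_nonneg_right h1 hx'.le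
      _ = p x := by field_simp

lemma Gau.isBounded_le (h : Gau p) : Bornology.IsBounded {x | p x ≤ 1} := by
  obtain ⟨c, hc, h1⟩ := h.lower
  refine (isBounded_closedBall (x := (0 : EuclideanSpace ℝ (Fin 3))) (r := 1 / c)).subset fun x hx => ?_
  rw [mem_closedBall_zero_iff, le_div_iff₀ hc, mul_comm]
  exact (h1 x).trans hx

lemma Gau.isBounded (h : Gau p) : Bornology.IsBounded {x | p x < 1} :=
  h.isBounded_le.subset fun x (hx : p x < 1) => show p x ≤ 1 from hx.le

lemma Gau.closure (h : Gau p) : closure {x | p x < 1} = {x | p x ≤ 1} := by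
  refine Subset.antisymm ?_ ?_
  · exact closure_minimal (fun x (hx : p x < 1) => show p x ≤ 1 from hx.le)
      (isClosed_le h.cont continuous_const)
  · intro x hx
    have hx' : p x ≤ 1 := hx
    have h1 : Tendsto (fun n : ℕ => (1 - 1 / ((n:ℝ) + 1)) • x) atTop (𝓝 ((1 - 0 : ℝ) • x)) :=
      (tendsto_const_nhds.sub tendsto_one_div_add_atTop_nhds_zero_nat).smul_const _
    rw [sub_zero, one_smul] at h1
    refine mem_closure_of_tendsto h1 (Eventually.of_forall fun n => ?_)
    have h2 : 0 < 1 / ((n:ℝ) + 1) := by positivity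
    have h3 : 1 / ((n:ℝ) + 1) ≤ 1 := by
      rw [div_le_one (by positivity)]
      have : (0:ℝ) ≤ n := Nat.cast_nonneg n
      linarith
    show p _ < 1
    rw [h.hom _ (by linarith)]
    have h4 := h.nonneg x
    nlinarith

lemma Gau.frontier (h : Gau p) : frontier {x | p x < 1} = {x | p x = 1} := by
  rw [_root_.frontier, h.closure, h.isOpen.interior_eq]
  ext x
  show p x ≤ 1 ∧ ¬ p x < 1 ↔ p x = 1
  constructor
  · rintro ⟨h1, h2⟩
    exact le_antisymm h1 (not_lt.1 h2)
  · intro h1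
    exact ⟨h1.le, h1.not_lt⟩

lemma Gau.ne_zero (h : Gau p) {x : EuclideanSpace ℝ (Fin 3)} (hx : p x = 1) : x ≠ 0 := by
  intro h0
  rw [h0, h.zero] at hx
  exact zero_ne_one hx

/-- the level surface is a topological sphere -/
lemma Gau.homeo (h : Gau p) :
    Nonempty ({x | p x = 1} ≃ₜ sphere (0 : EuclideanSpace ℝ (Fin 3)) 1) := by
  refine ⟨⟨⟨fun x => ⟨‖(x : EuclideanSpace ℝ (Fin 3))‖⁻¹ • (x : EuclideanSpace ℝ (Fin 3)), ?_⟩,
    fun u => ⟨(p u)⁻¹ • (u : EuclideanSpace ℝ (Fin 3)), ?_⟩, ?_, ?_⟩, ?_, ?_⟩⟩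
  · have hx : 0 < ‖(x : EuclideanSpace ℝ (Fin 3))‖ := norm_pos_iff.2 (h.ne_zero x.2)
    rw [mem_sphere_zero_iff_norm, norm_smul, norm_inv, norm_norm, inv_mul_cancel₀ hx.ne']
  · have hu : ‖(u : EuclideanSpace ℝ (Fin 3))‖ = 1 := by simp
    have hu0 : (u : EuclideanSpace ℝ (Fin 3)) ≠ 0 := by
      intro h0
      rw [h0, norm_zero] at hu
      exact zero_ne_one hu
    have h1 := h.pos _ hu0
    show p _ = 1
    rw [h.hom _ (inv_nonneg.2 h1.le), inv_mul_cancel₀ h1.ne']
  · intro x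
    have hx : 0 < ‖(x : EuclideanSpace ℝ (Fin 3))‖ := norm_pos_iff.2 (h.ne_zero x.2)
    have hx1 : p (x : EuclideanSpace ℝ (Fin 3)) = 1 := x.2
    apply Subtype.ext
    show (p (‖(x : EuclideanSpace ℝ (Fin 3))‖⁻¹ • (x : EuclideanSpace ℝ (Fin 3))))⁻¹ •
      (‖(x : EuclideanSpace ℝ (Fin 3))‖⁻¹ • (x : EuclideanSpace ℝ (Fin 3))) = x
    rw [h.hom _ (inv_nonneg.2 hx.le), hx1, mul_one, inv_inv, smul_smul, mul_inv_cancel₀ hx.ne',
      one_smul]
  · intro u
    have hu : ‖(u : EuclideanSpace ℝ (Fin 3))‖ = 1 := by simp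
    have hu0 : (u : EuclideanSpace ℝ (Fin 3)) ≠ 0 := by
      intro h0
      rw [h0, norm_zero] at hu
      exact zero_ne_one hu
    have h1 := h.pos _ hu0
    apply Subtype.ext
    show ‖(p (u : EuclideanSpace ℝ (Fin 3)))⁻¹ • (u : EuclideanSpace ℝ (Fin 3))‖⁻¹ •
      ((p (u : EuclideanSpace ℝ (Fin 3)))⁻¹ • (u : EuclideanSpace ℝ (Fin 3))) = u
    rw [norm_smul, hu, mul_one, norm_inv, Real.norm_of_nonneg h1.le, inv_inv, smul_smul,
      mul_inv_cancel₀ h1.ne', one_smul]
  · have h1 : Continuous fun x : {x | p x = 1} => ‖(x : EuclideanSpace ℝ (Fin 3))‖⁻¹ :=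
      (continuous_norm.comp continuous_subtype_val).inv₀ fun x =>
        (norm_pos_iff.2 (h.ne_zero x.2)).ne'
    have h2 : Continuous fun x : {x | p x = 1} =>
      ‖(x : EuclideanSpace ℝ (Fin 3))‖⁻¹ • (x : EuclideanSpace ℝ (Fin 3)) :=
      h1.smul continuous_subtype_val
    exact h2.subtype_mk _
  · have h1 : Continuous fun u : sphere (0 : EuclideanSpace ℝ (Fin 3)) 1 =>
        (p (u : EuclideanSpace ℝ (Fin 3)))⁻¹ := by
      refine (h.cont.comp continuous_subtype_val).inv₀ fun u => (h.pos _ ?_).ne'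
      have hu : ‖(u : EuclideanSpace ℝ (Fin 3))‖ = 1 := by simp
      intro h0
      rw [h0, norm_zero] at hu
      exact zero_ne_one hu
    have h2 : Continuous fun u : sphere (0 : EuclideanSpace ℝ (Fin 3)) 1 =>
      (p (u : EuclideanSpace ℝ (Fin 3)))⁻¹ • (u : EuclideanSpace ℝ (Fin 3)) :=
      h1.smul continuous_subtype_val
    exact h2.subtype_mk _

/-- the level surface is a null set -/
lemma Gau.null (h : Gau p) : volume {x | p x = 1} = 0 := by
  set A : Set (EuclideanSpace ℝ (Fin 3)) := {x | p x ≤ 1} with hA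
  set B : Set (EuclideanSpace ℝ (Fin 3)) := {x | p x < 1} with hB
  have hAfin : volume A ≠ ∞ := h.isBounded_le.measure_lt_top.ne
  have hsub : ∀ t : ℝ, 0 < t → t < 1 → t • A ⊆ B := by
    rintro t ht0 ht1 _ ⟨x, hx, rfl⟩
    have hx' : p x ≤ 1 := hx
    show p (t • x) < 1
    rw [h.hom t ht0.le]
    nlinarith
  have hle : ∀ t : ℝ, 0 < t → t < 1 → t ^ 3 * (volume A).toReal ≤ (volume B).toReal := by
    intro t ht0 ht1
    have h1 := measure_mono (μ := volume) (hsub t ht0 ht1)
    rw [Measure.addHaar_smul] at h1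
    have hfr : Module.finrank ℝ (EuclideanSpace ℝ (Fin 3)) = 3 := finrank_euclideanSpace_fin
    rw [hfr, abs_of_pos (by positivity)] at h1
    have h2 := ENNReal.toReal_mono h.isBounded.measure_lt_top.ne h1
    rwa [ENNReal.toReal_mul, ENNReal.toReal_ofReal (by positivity)] at h2
  have hlim : (volume A).toReal ≤ (volume B).toReal := by
    have h1 : Tendsto (fun n : ℕ => (1 - 1 / ((n:ℝ) + 2)) ^ 3 * (volume A).toReal) atTop
        (𝓝 ((1 - 0) ^ 3 * (volume A).toReal)) := by
      refine ((tendsto_const_nhds.sub ?_).pow 3).mul_const _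
      have h2 := (tendsto_add_atTop_iff_nat 1).2
        (tendsto_one_div_add_atTop_nhds_zero_nat (𝕜 := ℝ))
      refine h2.congr fun n => ?_
      push_cast
      ring
    rw [sub_zero, one_pow, one_mul] at h1
    refine le_of_tendsto' h1 fun n => ?_
    have hn : (0:ℝ) ≤ n := Nat.cast_nonneg n
    have h2 : 0 < 1 / ((n:ℝ) + 2) := by positivity
    have h3 : 1 / ((n:ℝ) + 2) < 1 := by
      rw [div_lt_one (by positivity)]
      linarith
    exact hle _ (by linarith) (by linarith)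
  have hBA : B ⊆ A := fun x (hx : p x < 1) => show p x ≤ 1 from hx.le
  have heq : {x | p x = 1} = A \ B := by
    ext x
    show p x = 1 ↔ p x ≤ 1 ∧ ¬ p x < 1
    constructor
    · intro h1
      exact ⟨h1.le, h1.not_lt⟩
    · rintro ⟨h1, h2⟩
      exact le_antisymm h1 (not_lt.1 h2)
  have hBfin : volume B ≠ ∞ := h.isBounded.measure_lt_top.ne
  rw [heq, measure_sdiff hBA h.isOpen.measurableSet.nullMeasurableSet hBfin]
  have h4 : volume A ≤ volume B := (ENNReal.toReal_le_toReal hAfin hBfin).1 hlim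
  exact tsub_eq_zero_of_le h4

/-- the gauge of a compact set that is star-shaped about every point of a ball -/
theorem gauge_gau {L : Set (EuclideanSpace ℝ (Fin 3))} (hcl : IsClosed L) {R η : ℝ} (hη : 0 < η)
    (hR : ∀ x ∈ L, ‖x‖ ≤ R)
    (hstar : ∀ x0, ‖x0‖ ≤ η → ∀ x ∈ L, ∀ τ : ℝ, 0 ≤ τ → τ ≤ 1 → τ • x + (1 - τ) • x0 ∈ L)
    (hne : L.Nonempty) : Gau (gauge L) ∧ ∀ x, gauge L x ≤ 1 ↔ x ∈ L := by
  have hball : ∀ x0, ‖x0‖ ≤ η → x0 ∈ L := by
    intro x0 hx0
    obtain ⟨x, hx⟩ := hne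
    have := hstar x0 hx0 x hx 0 le_rfl zero_le_one
    simpa using this
  have hstar0 : ∀ x ∈ L, ∀ τ : ℝ, 0 ≤ τ → τ ≤ 1 → τ • x ∈ L := by
    intro x hx τ h0 h1
    have := hstar 0 (by simpa using hη.le) x hx τ h0 h1
    simpa using this
  have hnhds : L ∈ 𝓝 (0 : EuclideanSpace ℝ (Fin 3)) :=
    mem_of_superset (closedBall_mem_nhds 0 hη) fun x hx => hball x (by simpa using hx)
  have habs : Absorbent ℝ L := absorbent_nhds_zero hnhds
  have hmem : ∀ x, x ∈ L → gauge L x ≤ 1 := fun x hx => gauge_le_of_mem zero_le_one (by simpa using hx)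
  have hscale : ∀ x (a : ℝ), gauge L x < a → a⁻¹ • x ∈ L := by
    intro x a ha
    obtain ⟨b, hb0, hba, hxb⟩ := exists_lt_of_gauge_lt habs ha
    rw [mem_smul_set_iff_inv_smul_mem₀ hb0.ne'] at hxb
    have ha0 : 0 < a := by linarith
    have h1 := hstar0 _ hxb (b / a) (by positivity) (by rw [div_le_one (by linarith)]; exact hba.le)
    rw [smul_smul] at h1
    have : b / a * b⁻¹ = a⁻¹ := by field_simp
    rwa [this] at h1
  have hlip : ∀ x y, gauge L (x + y) ≤ gauge L x + ‖y‖ / η := by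
    intro x y
    refine le_of_forall_pos_le_add fun ε hε => ?_
    by_cases hy : y = 0
    · rw [hy, add_zero, norm_zero, zero_div, add_zero]; linarith
    have hy0 : 0 < ‖y‖ := norm_pos_iff.2 hy
    set a := gauge L x + ε with ha
    have ha0 : 0 < a := by have := gauge_nonneg (s := L) x; linarith
    have h1 := hscale x a (by linarith)
    set b := ‖y‖ / η with hb
    have hb0 : 0 < b := by positivity
    have h2 : ‖(η / ‖y‖) • y‖ ≤ η := by
      rw [norm_smul, Real.norm_of_nonneg (by positivity)]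
      field_simp
      exact le_rfl
    have h3 := hstar _ h2 _ h1 (a / (a + b)) (by positivity) (by
      rw [div_le_one (by positivity)]; linarith)
    have h4 : (a / (a + b)) • a⁻¹ • x + (1 - a / (a + b)) • (η / ‖y‖) • y = (a + b)⁻¹ • (x + y) := by
      rw [smul_smul, smul_smul, smul_add]
      congr 2
      · field_simp
      · have : 1 - a / (a + b) = b / (a + b) := by field_simp; ring
        rw [this, hb]
        field_simp
    rw [h4] at h3
    have h5 : gauge L (x + y) ≤ a + b := by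
      apply gauge_le_of_mem (by positivity)
      rw [mem_smul_set_iff_inv_smul_mem₀ (by positivity)]
      exact h3
    linarith
  refine ⟨⟨?_, ?_, ?_⟩, fun x => ⟨fun hx => ?_, hmem x⟩⟩
  · rw [Metric.continuous_iff]
    intro x ε hε
    refine ⟨ε * η, by positivity, fun y hy => ?_⟩
    rw [dist_eq_norm] at hy
    have h1 := hlip x (y - x)
    have h2 := hlip y (x - y)
    rw [add_sub_cancel] at h1 h2
    rw [norm_sub_rev] at h2
    have h3 : ‖y - x‖ / η < ε := by rw [div_lt_iff₀ hη]; exact hy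
    rw [Real.dist_eq, abs_lt]
    constructor <;> linarith
  · intro t ht x
    rw [gauge_smul_of_nonneg ht, smul_eq_mul]
  · intro x hx
    have hx0 : 0 < ‖x‖ := norm_pos_iff.2 hx
    have hR0 : 0 < R := by
      obtain ⟨z, hz⟩ := (NormedSpace.sphere_nonempty (x := (0 : EuclideanSpace ℝ (Fin 3))) (r := η)).2 hη.le
      have hz1 : ‖z‖ = η := by simpa using hz
      have := hR z (hball z hz1.le)
      linarith
    by_contra hc
    push Not at hc
    have h0 : gauge L x = 0 := le_antisymm hc (gauge_nonneg x)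
    have h1 := hscale x (‖x‖ / (2 * R)) (by rw [h0]; positivity)
    have h2 := hR _ h1
    rw [norm_smul, norm_inv, Real.norm_of_nonneg (by positivity)] at h2
    have h3 : (‖x‖ / (2 * R))⁻¹ * ‖x‖ = 2 * R := by field_simp
    linarith
  · have h1 : Tendsto (fun n : ℕ => (1 + 1 / ((n:ℝ) + 1))⁻¹ • x) atTop (𝓝 ((1 + 0 : ℝ)⁻¹ • x)) :=
      ((tendsto_const_nhds.add tendsto_one_div_add_atTop_nhds_zero_nat).inv₀ (by norm_num)).smul_const _
    rw [add_zero, inv_one, one_smul] at h1
    refine hcl.mem_of_tendsto h1 (Eventually.of_forall fun n => ?_)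
    apply hscale
    have : 0 < 1 / ((n:ℝ) + 1) := by positivity
    linarith

end Pool.Agent.P8H73.HS
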