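import Pool.Agent.P8H73.HS.Star
import Pool.Agent.P8H73.HS.Sph

/-!
# Assembly
-/

set_option autoImplicit false

namespace Pool.Agent.P8H73.HS

open MeasureTheory Set Filter Topology Metric
open scoped RealInnerProductSpace ENNReal
open Pool.Agent.TH791.Cl Pool.Agent.TH791.Nw Pool.Agent.R999.Pot Pool.Agent.R999.MinP

variable {ρ : E3 → ℝ}

/-- the gauge of the cut ball -/
noncomputable def pU (x : E3) : ℝ := max ‖x‖ (1000/999 * x 0)

lemma pU_gau : Gau pU := by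
  refine ⟨?_, fun t ht x => ?_, fun x hx => ?_⟩
  · exact continuous_norm.max (cont0.const_mul _)
  · unfold pU
    rw [norm_smul, Real.norm_of_nonneg ht, mul_max_of_nonneg _ _ ht]
    congr 1
    show 1000/999 * (t * x 0) = _
    ring
  · exact lt_of_lt_of_le (norm_pos_iff.2 hx) (le_max_left _ _)

lemma pU_dom : {x | pU x < 1} = dom := by
  ext x
  show max ‖x‖ (1000/999 * x 0) < 1 ↔ ‖x‖ < 1 ∧ x 0 < 999/1000
  rw [max_lt_iff]
  constructor
  · rintro ⟨h1, h2⟩
    exact ⟨h1, by linarith⟩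
  · rintro ⟨h1, h2⟩
    exact ⟨h1, by linarith⟩

lemma Sol.gau (h : Sol ρ) : Gau (gauge (Con ρ)) ∧ ∀ x, gauge (Con ρ) x ≤ 1 ↔ x ∈ Con ρ :=
  gauge_gau h.con_closed (R := 1/2) (η := 1/100) (by norm_num) (fun _ hx => h.con_norm hx)
    (fun _ hx0 _ hx _ h0 h1 => h.star hx0 hx h0 h1) h.con_nonempty

lemma Sol.con_dom (h : Sol ρ) : Con ρ ⊆ dom := fun x hx => mem_dom (by linarith [h.con_norm hx])

lemma Sol.ae_zero (h : Sol ρ) : ∀ᵐ x, x ∈ {x | gauge (Con ρ) x < 1} → ρ x = 0 := by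
  obtain ⟨hg, hmem⟩ := h.gau
  set T : Set E3 := {x | gauge (Con ρ) x < 1} with hT
  have hTo : IsOpen T := hg.isOpen
  rw [ae_iff]
  refine measure_null_of_locally_null _ fun x hx => ?_
  have hxT : x ∈ T := by
    by_contra hc
    exact hx fun h' => absurd h' hc
  obtain ⟨s, hs, hsub⟩ := Metric.isOpen_iff.1 hTo x hxT
  have hpot : ∀ y ∈ T, pot ρ y = kap := fun y (hy : gauge (Con ρ) y < 1) => (hmem y).1 hy.le
  have h1 := zero_of_const h.dn.nice (fun y => (h.adm.2 y).1) x hs (fun y hy => by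
    rw [hpot y (hsub hy), hpot x hxT])
  rw [ae_iff] at h1
  refine ⟨_, inter_mem_nhdsWithin _ (ball_mem_nhds x hs), measure_mono_null ?_ h1⟩
  rintro y ⟨hy1, hy2⟩ hc
  exact hy1 fun _ => hc hy2

lemma Sol.ae_eq (h : Sol ρ) : ρ =ᵐ[volume] (dom \ Con ρ).indicator fun _ => (1:ℝ) := by
  obtain ⟨hg, hmem⟩ := h.gau
  have hnull : ∀ᵐ x : E3, ¬ gauge (Con ρ) x = 1 := by
    rw [ae_iff]
    simpa using hg.null
  filter_upwards [h.full, h.ae_zero, hnull] with x h1 h2 h3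
  by_cases hxL : x ∈ Con ρ
  · have h4 : gauge (Con ρ) x < 1 := lt_of_le_of_ne ((hmem x).2 hxL) h3
    rw [h2 h4, indicator_of_notMem (fun h' => h'.2 hxL)]
  · by_cases hd : x ∈ dom
    · have hm : x ∈ dom \ Con ρ := ⟨hd, hxL⟩
      rw [indicator_of_mem hm]
      exact h1 hd (lt_of_le_of_ne (h.le x) hxL)
    · rw [h.zero hd, indicator_of_notMem (fun h' => hd h'.1)]

lemma Sol.const (h : Sol ρ) {P : E3} (hP : P ∈ Con ρ) :
    ∫ M in dom \ Con ρ, (dist P M)⁻¹ = kap := by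
  have h1 : pot ρ P = kap := hP
  rw [← h1, pot_congr h.ae_eq P, ← integral_indicator
    (dom_open.measurableSet.diff h.con_closed.measurableSet)]
  unfold pot
  refine integral_congr_ae (ae_of_all _ fun M => ?_)
  by_cases hM : M ∈ dom \ Con ρ
  · simp only [indicator_of_mem hM]
    rw [dist_eq_norm, one_div]
  · simp only [indicator_of_notMem hM]
    simp

/-- the boundary of the cut ball is not an ellipsoid -/
lemma not_ell (f : E3 ≃ᵃ[ℝ] E3) : {x | pU x = 1} ≠ f '' sphere (0:E3) 1 := by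
  intro hS
  set A : E3 := !₂[999/1000, 1/25, 0] with hA
  set B : E3 := !₂[999/1000, -1/25, 0] with hB
  set C : E3 := !₂[999/1000, 0, 0] with hC
  have hA1 : A ∈ {x | pU x = 1} := by
    show max ‖A‖ (1000/999 * A 0) = 1
    have h1 : ‖A‖ ≤ 1 := by
      rw [EuclideanSpace.norm_eq, Real.sqrt_le_one]
      simp [hA, Fin.sum_univ_three]
      norm_num
    have h2 : 1000/999 * A 0 = 1 := by simp [hA]
    rw [h2, max_eq_right h1]
  have hB1 : B ∈ {x | pU x = 1} := by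
    show max ‖B‖ (1000/999 * B 0) = 1
    have h1 : ‖B‖ ≤ 1 := by
      rw [EuclideanSpace.norm_eq, Real.sqrt_le_one]
      simp [hB, Fin.sum_univ_three]
      norm_num
    have h2 : 1000/999 * B 0 = 1 := by simp [hB]
    rw [h2, max_eq_right h1]
  have hC1 : C ∈ {x | pU x = 1} := by
    show max ‖C‖ (1000/999 * C 0) = 1
    have h1 : ‖C‖ ≤ 1 := by
      rw [EuclideanSpace.norm_eq, Real.sqrt_le_one]
      simp [hC, Fin.sum_univ_three]
      norm_num
    have h2 : 1000/999 * C 0 = 1 := by simp [hC]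
    rw [h2, max_eq_right h1]
  rw [hS] at hA1 hB1 hC1
  obtain ⟨a, ha, haA⟩ := hA1
  obtain ⟨b, hb, hbB⟩ := hB1
  obtain ⟨c, hc, hcC⟩ := hC1
  have hmid : C = midpoint ℝ A B := by
    rw [midpoint_eq_smul_add]
    ext i
    fin_cases i
    · simp [hA, hB, hC]; norm_num
    · simp [hA, hB, hC]; norm_num
    · simp [hA, hB, hC]
  have hcm : c = midpoint ℝ a b := by
    apply f.injective
    rw [hcC, f.map_midpoint, haA, hbB, hmid]
  rw [mem_sphere_zero_iff_norm] at ha hb hc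
  have h1 := parallelogram_law_with_norm ℝ a b
  have h2 : ‖a + b‖ = 2 := by
    have h3 : a + b = (2:ℝ) • c := by
      rw [hcm, midpoint_eq_smul_add, smul_smul]
      norm_num
    rw [h3, norm_smul, hc]
    norm_num
  rw [h2, ha, hb] at h1
  have h4 : ‖a - b‖ = 0 := by nlinarith [norm_nonneg (a - b)]
  have h5 : a = b := by
    rw [norm_eq_zero, sub_eq_zero] at h4
    exact h4
  have h6 : A = B := by rw [← haA, ← hbB, h5]
  have h7 : A 1 = B 1 := by rw [h6]
  simp [hA, hB] at h7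
  norm_num at h7

theorem main_neg :
    ¬ (∀ (S S₁ U T₁ : Set (EuclideanSpace ℝ (Fin 3))),
    Nonempty (S ≃ₜ Metric.sphere (0 : EuclideanSpace ℝ (Fin 3)) 1) →
    Nonempty (S₁ ≃ₜ Metric.sphere (0 : EuclideanSpace ℝ (Fin 3)) 1) →
    IsOpen U → IsConnected U → Bornology.IsBounded U → frontier U = S →
    IsOpen T₁ → IsConnected T₁ → Bornology.IsBounded T₁ → frontier T₁ = S₁ →
    closure T₁ ⊆ U →
    (∃ c : ℝ, ∀ P ∈ T₁, ∫ M in U \ closure T₁, (dist P M)⁻¹ = c) →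
    ∃ (f : EuclideanSpace ℝ (Fin 3) ≃ᵃ[ℝ] EuclideanSpace ℝ (Fin 3)) (k : ℝ),
      0 < k ∧ k < 1 ∧
      S = f '' Metric.sphere (0 : EuclideanSpace ℝ (Fin 3)) 1 ∧
      S₁ = f '' Metric.sphere (0 : EuclideanSpace ℝ (Fin 3)) k) := by
  intro H
  obtain ⟨ρ, h⟩ := exists_sol
  obtain ⟨hg, hmem⟩ := h.gau
  have hcl : closure {x | gauge (Con ρ) x < 1} = Con ρ := by
    rw [hg.closure]
    ext x
    exact hmem x
  obtain ⟨f, k, -, -, hS, -⟩ := H {x | pU x = 1} {x | gauge (Con ρ) x = 1} {x | pU x < 1}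
    {x | gauge (Con ρ) x < 1} pU_gau.homeo hg.homeo pU_gau.isOpen pU_gau.isConnected
    pU_gau.isBounded pU_gau.frontier hg.isOpen hg.isConnected hg.isBounded hg.frontier
    (by rw [hcl, pU_dom]; exact h.con_dom)
    ⟨kap, fun P hP => by
      rw [hcl, pU_dom]
      exact h.const ((hmem P).1 (show gauge (Con ρ) P < 1 from hP).le)⟩
  exact not_ell f hS

end Pool.Agent.P8H73.HS
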