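import Mathlib

/-!
# A continuous midpoint convex function on a bounded closed convex subset of a Hilbert space attains its minimum
-/

set_option autoImplicit false

namespace Pool.Agent.P8H73.HS

open Set Filter Topology Metric

theorem exists_min {H : Type*} [NormedAddCommGroup H] [InnerProductSpace ℝ H] [CompleteSpace H]
    (K : Set H) (hne : K.Nonempty) (hc : IsClosed K)
    (hmid : ∀ f ∈ K, ∀ g ∈ K, (1/2:ℝ) • (f + g) ∈ K) (R : ℝ) (hR : ∀ f ∈ K, ‖f‖ ≤ R)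
    (J : H → ℝ) (hJc : ContinuousOn J K)
    (hJm : ∀ f ∈ K, ∀ g ∈ K, J ((1/2:ℝ) • (f + g)) ≤ (J f + J g) / 2) (m0 : ℝ)
    (hJb : ∀ f ∈ K, m0 ≤ J f) : ∃ f ∈ K, ∀ g ∈ K, J f ≤ J g := by
  set m : ℝ := sInf (J '' K) with hm
  have hbdd : BddBelow (J '' K) := ⟨m0, by rintro _ ⟨f, hf, rfl⟩; exact hJb f hf⟩
  have hmle : ∀ g ∈ K, m ≤ J g := fun g hg => csInf_le hbdd ⟨g, hg, rfl⟩
  set Kn : ℕ → Set H := fun n => {f | f ∈ K ∧ J f ≤ m + 1 / ((n:ℝ) + 1)} with hKn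
  have hKne : ∀ n, (Kn n).Nonempty := by
    intro n
    have h1 : sInf (J '' K) < m + 1 / ((n:ℝ) + 1) := by
      rw [← hm]
      have : (0:ℝ) < 1 / ((n:ℝ) + 1) := by positivity
      linarith
    obtain ⟨_, ⟨f, hf, rfl⟩, h2⟩ := exists_lt_of_csInf_lt (hne.image J) h1
    exact ⟨f, hf, h2.le⟩
  have hKanti : ∀ n k, n ≤ k → Kn k ⊆ Kn n := by
    intro n k hnk f hf
    refine ⟨hf.1, hf.2.trans ?_⟩
    have : 1 / ((k:ℝ) + 1) ≤ 1 / ((n:ℝ) + 1) := by
      apply one_div_le_one_div_of_le (by positivity)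
      have : (n:ℝ) ≤ k := by exact_mod_cast hnk
      linarith
    linarith
  set i : ℕ → ℝ := fun n => sInf ((fun f : H => ‖f‖ ^ 2) '' Kn n) with hi
  have hib : ∀ n, BddBelow ((fun f : H => ‖f‖ ^ 2) '' Kn n) :=
    fun n => ⟨0, by rintro _ ⟨f, _, rfl⟩; positivity⟩
  have hile : ∀ n, ∀ f ∈ Kn n, i n ≤ ‖f‖ ^ 2 := fun n f hf => csInf_le (hib n) ⟨f, hf, rfl⟩
  have hex : ∀ n, ∃ f ∈ Kn n, ‖f‖ ^ 2 ≤ i n + 1 / ((n:ℝ) + 1) := by
    intro n
    have h1 : sInf ((fun f : H => ‖f‖ ^ 2) '' Kn n) < i n + 1 / ((n:ℝ) + 1) := by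
      have : (0:ℝ) < 1 / ((n:ℝ) + 1) := by positivity
      show i n < _
      linarith
    obtain ⟨_, ⟨f, hf, rfl⟩, h2⟩ := exists_lt_of_csInf_lt ((hKne n).image _) h1
    exact ⟨f, hf, h2.le⟩
  choose F hF hF2 using hex
  have himono : Monotone i := by
    intro n k hnk
    exact csInf_le_csInf (hib n) ((hKne k).image _) (image_mono (hKanti n k hnk))
  have hiR : ∀ n, i n ≤ R ^ 2 := by
    intro n
    refine (hile n (F n) (hF n)).trans ?_
    exact pow_le_pow_left₀ (norm_nonneg _) (hR _ (hF n).1) 2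
  have hibdd : BddAbove (range i) := ⟨R ^ 2, by rintro _ ⟨n, rfl⟩; exact hiR n⟩
  have hlim := tendsto_atTop_ciSup himono hibdd
  set L := ⨆ n, i n with hL
  have hiL : ∀ n, i n ≤ L := fun n => le_ciSup hibdd n
  have hdist : ∀ n k, n ≤ k → dist (F n) (F k) ≤ √(2 * (L - i n) + 4 * (1 / ((n:ℝ) + 1))) := by
    intro n k hnk
    apply Real.le_sqrt_of_sq_le
    have hk : F k ∈ Kn n := hKanti n k hnk (hF k)
    have hmidn : (1/2:ℝ) • (F n + F k) ∈ Kn n := by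
      refine ⟨hmid _ (hF n).1 _ hk.1, (hJm _ (hF n).1 _ hk.1).trans ?_⟩
      have h1 := (hF n).2
      have h2 := hk.2
      linarith
    have h1 := hile n _ hmidn
    have h2 : ‖(1/2:ℝ) • (F n + F k)‖ ^ 2 = (1/4) * ‖F n + F k‖ ^ 2 := by
      rw [norm_smul, mul_pow]; norm_num
    rw [h2] at h1
    have h3 := parallelogram_law_with_norm ℝ (F n) (F k)
    have h4 := hF2 n
    have h5 := hF2 k
    have h6 := hiL k
    have h7 : 1 / ((k:ℝ) + 1) ≤ 1 / ((n:ℝ) + 1) := by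
      apply one_div_le_one_div_of_le (by positivity)
      have : (n:ℝ) ≤ k := by exact_mod_cast hnk
      linarith
    rw [dist_eq_norm]
    nlinarith
  have hb0 : Tendsto (fun n : ℕ => √(2 * (L - i n) + 4 * (1 / ((n:ℝ) + 1)))) atTop (𝓝 0) := by
    have h1 : Tendsto (fun n : ℕ => 2 * (L - i n) + 4 * (1 / ((n:ℝ) + 1))) atTop
        (𝓝 (2 * (L - L) + 4 * 0)) :=
      ((tendsto_const_nhds.sub hlim).const_mul 2).add
        (tendsto_one_div_add_atTop_nhds_zero_nat.const_mul 4)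
    have h2 := (Real.continuous_sqrt.tendsto _).comp h1
    simpa [Function.comp_def] using h2
  have hcauchy : CauchySeq F := cauchySeq_of_le_tendsto_0' _ hdist hb0
  obtain ⟨f, hf⟩ := cauchySeq_tendsto_of_complete hcauchy
  have hfK : f ∈ K := hc.mem_of_tendsto hf (Eventually.of_forall fun n => (hF n).1)
  refine ⟨f, hfK, fun g hg => ?_⟩
  have hJ : Tendsto (fun n => J (F n)) atTop (𝓝 (J f)) :=
    (hJc f hfK).tendsto.comp (tendsto_nhdsWithin_iff.2 ⟨hf, Eventually.of_forall fun n => (hF n).1⟩)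
  have hm1 : Tendsto (fun n : ℕ => m + 1 / ((n:ℝ) + 1)) atTop (𝓝 (m + 0)) :=
    tendsto_const_nhds.add tendsto_one_div_add_atTop_nhds_zero_nat
  have h1 := le_of_tendsto_of_tendsto' hJ hm1 fun n => (hF n).2
  have h2 := hmle g hg
  linarith

end Pool.Agent.P8H73.HS
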