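import Pool.Agent.P8H73.HS.Base
import Pool.Agent.P8H73.HS.Hilb

/-!
# Existence of minimal densities between 0 and 1
-/

set_option autoImplicit false

namespace Pool.Agent.P8H73.HS

open MeasureTheory Set Filter Topology Metric
open scoped RealInnerProductSpace ENNReal
open Pool.Agent.TH791.Cl Pool.Agent.TH791.Nw Pool.Agent.R999.Pot Pool.Agent.R999.MinP

/-- the energy -/
noncomputable def En (κ : ℝ) (g : E3 → ℝ) : ℝ := 1/2 * (∫ x, g x * pot g x) - κ * ∫ x, g x

/-- admissible densities -/
def Adm (U : Set E3) (g : E3 → ℝ) : Prop :=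
  Measurable g ∧ ∀ x, 0 ≤ g x ∧ g x ≤ U.indicator (fun _ => (1:ℝ)) x

lemma Adm.dn {U : Set E3} (hb : Bornology.IsBounded U) {g : E3 → ℝ} (hg : Adm U g) : Dn g := by
  obtain ⟨hm, h⟩ := hg
  obtain ⟨R, hR⟩ := hb.subset_ball (0:E3)
  refine ⟨hm, ⟨1, fun x => ?_⟩, R, fun x hx => ?_⟩
  · rw [abs_of_nonneg (h x).1]
    refine (h x).2.trans ?_
    by_cases hx : x ∈ U <;> simp [hx]
  · have hxU : x ∉ U := by
      intro h'
      have := hR h'
      simp only [mem_ball, dist_zero_right] at this
      linarith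
    have := h x
    rw [indicator_of_notMem hxU] at this
    linarith [this.1, this.2]

lemma En_congr {κ : ℝ} {f g : E3 → ℝ} (h : f =ᵐ[volume] g) : En κ f = En κ g := by
  unfold En
  have h1 : pot f = pot g := funext fun x => pot_congr h x
  rw [h1, integral_congr_ae h, integral_congr_ae (show (fun x => f x * pot g x) =ᵐ[volume]
    fun x => g x * pot g x from h.mono fun x hx => by simp only [hx])]

/-- expansion of the energy along a segment -/
lemma En_seg {κ : ℝ} {f g : E3 → ℝ} (hf : Nice f) (hg : Nice g) (t : ℝ) :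
    En κ (fun x => f x + t * (g x - f x)) = En κ f
      + t * (∫ x, (g x - f x) * (pot f x - κ))
      + 1/2 * t ^ 2 * ∫ x, (g x - f x) * pot (fun x => g x - f x) x := by
  have hd : Nice (fun x => g x - f x) := pd_nice g f hg hf
  have htd : Nice (fun x => t * (g x - f x)) := nice_mul t hd
  have hp : ∀ x, pot (fun x => f x + t * (g x - f x)) x =
      pot f x + t * pot (fun x => g x - f x) x := by
    intro x
    rw [pot_add hf htd, pot_mul]
  have i1 := pd_int f f hf hf
  have i2 := pd_int f _ hf hd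
  have i3 := pd_int _ f hd hf
  have i4 := pd_int _ _ hd hd
  have hsw := pd_swap f _ hf hd
  unfold En
  simp only [hp]
  have e1 : ∀ x, (f x + t * (g x - f x)) * (pot f x + t * pot (fun x => g x - f x) x) =
      f x * pot f x + t * (f x * pot (fun x => g x - f x) x) + t * ((g x - f x) * pot f x)
        + t ^ 2 * ((g x - f x) * pot (fun x => g x - f x) x) := by
    intro x; ring
  have e2 : ∀ x, (g x - f x) * (pot f x - κ) = (g x - f x) * pot f x - κ * (g x - f x) := by
    intro x; ring
  simp only [e1, e2]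
  have k2 : Integrable (fun x => t * (f x * pot (fun x => g x - f x) x)) := i2.const_mul t
  have k3 : Integrable (fun x => t * ((g x - f x) * pot f x)) := i3.const_mul t
  have k4 : Integrable (fun x => t ^ 2 * ((g x - f x) * pot (fun x => g x - f x) x)) :=
    i4.const_mul _
  have k5 : Integrable (fun x => f x * pot f x + t * (f x * pot (fun x => g x - f x) x)) :=
    i1.add k2
  have k6 : Integrable (fun x => f x * pot f x + t * (f x * pot (fun x => g x - f x) x)
      + t * ((g x - f x) * pot f x)) := k5.add k3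
  have k7 : Integrable (fun x => κ * (g x - f x)) := hd.2.1.const_mul κ
  have k8 : Integrable (fun x => t * (g x - f x)) := hd.2.1.const_mul t
  rw [integral_add k6 k4, integral_add k5 k3, integral_add i1 k2, integral_const_mul,
    integral_const_mul, integral_const_mul, integral_sub i3 k7, integral_const_mul,
    integral_add hf.2.1 k8, integral_const_mul, hsw]
  ring

lemma pd_pos {g : E3 → ℝ} (hg : Nice g) : 0 ≤ ∫ x, g x * pot g x := by
  have h := coulomb_pd g hg
  simpa only [pd_inner] using h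

lemma En_mid {κ : ℝ} {f g : E3 → ℝ} (hf : Nice f) (hg : Nice g) :
    En κ (fun x => 1/2 * (f x + g x)) ≤ (En κ f + En κ g) / 2 := by
  have hd : Nice (fun x => g x - f x) := pd_nice g f hg hf
  have h0 := En_seg (κ := κ) hf hg (1/2)
  have h1 := En_seg (κ := κ) hf hg 1
  have hp := pd_pos hd
  have e1 : (fun x => 1/2 * (f x + g x)) = fun x => f x + 1/2 * (g x - f x) := by
    funext x; ring
  have e2 : (fun x => f x + 1 * (g x - f x)) = g := by
    funext x; ring
  rw [e2] at h1
  rw [e1, h0]
  nlinarith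

lemma En_diff {κ B : ℝ} {f g : E3 → ℝ} (hf : Nice f) (hg : Nice g)
    (hB : ∀ x, |1/2 * (pot f x + pot g x) - κ| ≤ B) :
    |En κ f - En κ g| ≤ B * ∫ x, |f x - g x| := by
  have hd : Nice (fun x => f x - g x) := pd_nice f g hf hg
  have i1 := pd_int f f hf hf
  have i2 := pd_int g g hg hg
  have i3 := pd_int f g hf hg
  have i4 := pd_int g f hg hf
  have hsw := pd_swap f g hf hg
  have e : En κ f - En κ g = ∫ x, (f x - g x) * (1/2 * (pot f x + pot g x) - κ) := by
    have e1 : ∀ x, (f x - g x) * (1/2 * (pot f x + pot g x) - κ) =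
        1/2 * (f x * pot f x) + 1/2 * (f x * pot g x) - 1/2 * (g x * pot f x)
          - 1/2 * (g x * pot g x) - κ * (f x - g x) := by
      intro x; ring
    simp only [e1]
    have j1 : Integrable fun x => 1/2 * (f x * pot f x) := i1.const_mul _
    have j2 : Integrable fun x => 1/2 * (g x * pot g x) := i2.const_mul _
    have j3 : Integrable fun x => 1/2 * (f x * pot g x) := i3.const_mul _
    have j4 : Integrable fun x => 1/2 * (g x * pot f x) := i4.const_mul _
    have j5 : Integrable fun x => κ * (f x - g x) := hd.2.1.const_mul _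
    have l1 : Integrable fun x => 1/2 * (f x * pot f x) + 1/2 * (f x * pot g x) := j1.add j3
    have l2 : Integrable fun x => 1/2 * (f x * pot f x) + 1/2 * (f x * pot g x)
      - 1/2 * (g x * pot f x) := l1.sub j4
    have l3 : Integrable fun x => 1/2 * (f x * pot f x) + 1/2 * (f x * pot g x)
      - 1/2 * (g x * pot f x) - 1/2 * (g x * pot g x) := l2.sub j2
    rw [integral_sub l3 j5, integral_sub l2 j2, integral_sub l1 j4, integral_add j1 j3]
    simp only [integral_const_mul]
    rw [integral_sub hf.2.1 hg.2.1, hsw]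
    unfold En
    ring
  rw [e]
  refine (abs_integral_le_integral_abs).trans ?_
  rw [← integral_const_mul]
  refine integral_mono_of_nonneg (ae_of_all _ fun x => abs_nonneg _) (hd.2.1.abs.const_mul B)
    (ae_of_all _ fun x => ?_)
  show |(f x - g x) * (1/2 * (pot f x + pot g x) - κ)| ≤ B * |f x - g x|
  rw [abs_mul, mul_comm]
  exact mul_le_mul_of_nonneg_right (hB x) (abs_nonneg _)

/-- truncation -/
noncomputable def cl (U : Set E3) (f : E3 → ℝ) : E3 → ℝ :=
  U.indicator fun x => max 0 (min 1 (f x))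

lemma cl_adm {U : Set E3} (hU : MeasurableSet U) {f : E3 → ℝ} (hf : Measurable f) :
    Adm U (cl U f) := by
  refine ⟨(measurable_const.max (measurable_const.min hf)).indicator hU, fun x => ?_⟩
  unfold cl
  by_cases hx : x ∈ U
  · rw [indicator_of_mem hx, indicator_of_mem hx]
    exact ⟨le_max_left _ _, max_le zero_le_one (min_le_left _ _)⟩
  · rw [indicator_of_notMem hx, indicator_of_notMem hx]
    exact ⟨le_rfl, le_rfl⟩

lemma cl_eq {U : Set E3} {f : E3 → ℝ} {x : E3} (h0 : 0 ≤ f x)
    (h1 : f x ≤ U.indicator (fun _ => (1:ℝ)) x) : cl U f x = f x := by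
  unfold cl
  by_cases hx : x ∈ U
  · rw [indicator_of_mem hx]
    rw [indicator_of_mem hx] at h1
    rw [min_eq_right h1, max_eq_right h0]
  · rw [indicator_of_notMem hx]
    rw [indicator_of_notMem hx] at h1
    linarith

/-- **Existence of a minimiser.** -/
theorem exists_adm_min {U : Set E3} (hU : MeasurableSet U) (hb : Bornology.IsBounded U) (κ : ℝ) :
    ∃ ρ : E3 → ℝ, Adm U ρ ∧ ∀ η : E3 → ℝ, Adm U η → En κ ρ ≤ En κ η := by
  have hμ : volume U ≠ ∞ := hb.measure_lt_top.ne
  set e : Lp ℝ 2 (volume : Measure E3) := indicatorConstLp 2 hU hμ (1:ℝ) with he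
  set K : Set (Lp ℝ 2 (volume : Measure E3)) := Icc 0 e with hK
  have hKiff : ∀ f : Lp ℝ 2 (volume : Measure E3), f ∈ K ↔
      ∀ᵐ x, 0 ≤ f x ∧ f x ≤ U.indicator (fun _ => (1:ℝ)) x := by
    intro f
    have hecoe : (e : E3 → ℝ) =ᵐ[volume] U.indicator fun _ => (1:ℝ) := indicatorConstLp_coeFn
    have h0coe := Lp.coeFn_zero ℝ 2 (volume : Measure E3)
    rw [hK, mem_Icc, ← Lp.coeFn_le, ← Lp.coeFn_le]
    constructor
    · rintro ⟨h1, h2⟩
      filter_upwards [h1, h2, hecoe, h0coe] with x a b c d
      rw [d] at a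
      rw [c] at b
      exact ⟨a, b⟩
    · intro h
      constructor
      · filter_upwards [h, h0coe] with x a b
        rw [b]; exact a.1
      · filter_upwards [h, hecoe] with x a b
        rw [b]; exact a.2
  have hind : Adm U (U.indicator fun _ => (1:ℝ)) := by
    refine ⟨measurable_const.indicator hU, fun x => ⟨indicator_nonneg (fun _ _ => zero_le_one) _, le_rfl⟩⟩
  have hfm : ∀ f : Lp ℝ 2 (volume : Measure E3), Measurable (f : E3 → ℝ) := fun f =>
    (Lp.stronglyMeasurable f).measurable
  have hcln : ∀ f : Lp ℝ 2 (volume : Measure E3), Nice (cl U f) := fun f =>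
    ((cl_adm hU (hfm f)).dn hb).nice
  have hcleq : ∀ f ∈ K, cl U f =ᵐ[volume] f := by
    intro f hf
    filter_upwards [(hKiff f).1 hf] with x hx
    exact cl_eq hx.1 hx.2
  obtain ⟨B, hB⟩ := nice_bound _ (hind.dn hb).nice
  have hpotB : ∀ g, Adm U g → ∀ x, 0 ≤ pot g x ∧ pot g x ≤ B := by
    intro g hg x
    have hn := (hg.dn hb).nice
    constructor
    · unfold pot
      exact integral_nonneg fun y => div_nonneg (hg.2 y).1 (norm_nonneg _)
    · refine (pot_mono hn (hind.dn hb).nice (ae_of_all _ fun y => (hg.2 y).2) x).trans ?_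
      refine le_trans ?_ (hB x).2
      unfold pot
      refine le_of_eq (integral_congr_ae (ae_of_all _ fun y => ?_))
      show _ = |_| / _
      rw [abs_of_nonneg (hind.2 y).1]
  have hB0 : 0 ≤ B := ((hpotB _ hind 0).1).trans (hpotB _ hind 0).2
  set C : ℝ := (B + |κ|) with hC
  have hL1 : ∀ f ∈ K, ∀ g ∈ K, ∫ x, |cl U f x - cl U g x| ≤ ‖e‖ * ‖f - g‖ := by
    intro f hf g hg
    have h1 : ∫ x, |cl U f x - cl U g x| = ∫ x in U, |f - g| x := by
      rw [← integral_indicator hU]
      refine integral_congr_ae ?_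
      filter_upwards [Lp.coeFn_abs (f - g), Lp.coeFn_sub f g, hcleq f hf, hcleq g hg] with x a b c d
      show |cl U f x - cl U g x| = U.indicator (|f - g| : Lp ℝ 2 (volume : Measure E3)) x
      by_cases hx : x ∈ U
      · rw [indicator_of_mem hx, a, b, c, d]; rfl
      · rw [indicator_of_notMem hx]
        unfold cl
        rw [indicator_of_notMem hx, indicator_of_notMem hx]; simp
    have h2 := L2.inner_indicatorConstLp_one (𝕜 := ℝ) hU hμ |f - g|
    rw [h1, ← h2]
    refine (real_inner_le_norm _ _).trans ?_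
    rw [norm_abs_eq_norm]
  have key : ∀ f ∈ K, ∀ g ∈ K, |En κ (cl U f) - En κ (cl U g)| ≤ C * ‖e‖ * ‖f - g‖ := by
    intro f hf g hg
    have h1 := En_diff (κ := κ) (B := C) (hcln f) (hcln g) (fun x => by
      obtain ⟨a1, a2⟩ := hpotB _ (cl_adm hU (hfm f)) x
      obtain ⟨b1, b2⟩ := hpotB _ (cl_adm hU (hfm g)) x
      have := neg_abs_le κ
      have := le_abs_self κ
      rw [abs_le]
      constructor <;> linarith)
    refine h1.trans ?_
    rw [mul_assoc]
    exact mul_le_mul_of_nonneg_left (hL1 f hf g hg) (by positivity)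
  have hJc : ContinuousOn (fun f : Lp ℝ 2 (volume : Measure E3) => En κ (cl U f)) K := by
    rw [Metric.continuousOn_iff]
    intro f hf ε hε
    refine ⟨ε / (C * ‖e‖ + 1), by positivity, fun g hg hgf => ?_⟩
    rw [Real.dist_eq]
    rw [dist_eq_norm] at hgf
    refine (key g hg f hf).trans_lt ?_
    calc C * ‖e‖ * ‖g - f‖ ≤ (C * ‖e‖ + 1) * ‖g - f‖ := by
          apply mul_le_mul_of_nonneg_right (by linarith) (norm_nonneg _)
      _ < (C * ‖e‖ + 1) * (ε / (C * ‖e‖ + 1)) := by
          apply mul_lt_mul_of_pos_left hgf (by positivity)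
      _ = ε := mul_div_cancel₀ _ (by positivity)
  have hmidae : ∀ f g : Lp ℝ 2 (volume : Measure E3), ∀ᵐ x, ((1/2:ℝ) • (f + g) : Lp ℝ 2 (volume : Measure E3)) x = 1/2 * (f x + g x) := by
    intro f g
    filter_upwards [Lp.coeFn_smul (1/2:ℝ) (f + g), Lp.coeFn_add f g] with x a b
    rw [a, Pi.smul_apply, b, Pi.add_apply, smul_eq_mul]
  have hmidK : ∀ f ∈ K, ∀ g ∈ K, (1/2:ℝ) • (f + g) ∈ K := by
    intro f hf g hg
    rw [hKiff] at hf hg ⊢
    filter_upwards [hf, hg, hmidae f g] with x a b c
    rw [c]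
    constructor
    · linarith [a.1, b.1]
    · linarith [a.2, b.2]
  obtain ⟨f, hf, hmin⟩ := exists_min K
    ⟨0, by
      rw [hKiff]
      filter_upwards [Lp.coeFn_zero ℝ 2 (volume : Measure E3)] with x hx
      rw [hx]
      exact ⟨le_rfl, indicator_nonneg (fun _ _ => zero_le_one) _⟩⟩
    isClosed_Icc hmidK ‖e‖
    (fun f hf => by
      have h1 : |f| ≤ |e| := by
        rw [abs_of_nonneg hf.1, abs_of_nonneg (hf.1.trans hf.2)]
        exact hf.2
      exact norm_le_norm_of_abs_le_abs h1)
    (fun f => En κ (cl U f)) hJc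
    (fun f hf g hg => by
      have h1 : cl U ((1/2:ℝ) • (f + g) : Lp ℝ 2 (volume : Measure E3)) =ᵐ[volume]
          fun x => 1/2 * (cl U f x + cl U g x) := by
        filter_upwards [hcleq _ (hmidK f hf g hg), hcleq f hf, hcleq g hg, hmidae f g] with x a b c d
        rw [a, b, c, d]
      show En κ (cl U ((1/2:ℝ) • (f + g) : Lp ℝ 2 (volume : Measure E3))) ≤ _
      rw [En_congr h1]
      exact En_mid (hcln f) (hcln g))
    (-(|κ| * ∫ x, U.indicator (fun _ => (1:ℝ)) x))
    (fun f _ => by
      have hA := cl_adm hU (hfm f)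
      have h1 := pd_pos (hcln f)
      have h2 : 0 ≤ ∫ x, cl U f x := integral_nonneg fun x => (hA.2 x).1
      have h3 : ∫ x, cl U f x ≤ ∫ x, U.indicator (fun _ => (1:ℝ)) x :=
        integral_mono (hcln f).2.1 (hind.dn hb).nice.2.1 fun x => (hA.2 x).2
      unfold En
      have h4 : κ * ∫ x, cl U f x ≤ |κ| * ∫ x, U.indicator (fun _ => (1:ℝ)) x :=
        (mul_le_mul_of_nonneg_right (le_abs_self κ) h2).trans
          (mul_le_mul_of_nonneg_left h3 (abs_nonneg _))
      linarith)
  refine ⟨cl U f, cl_adm hU (hfm f), fun η hη => ?_⟩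
  have hηm : MemLp η 2 (volume : Measure E3) := by
    have h1 : MemLp (U.indicator fun _ => (1:ℝ)) 2 (volume : Measure E3) :=
      memLp_indicator_const 2 hU 1 (Or.inr hμ)
    refine h1.of_le hη.1.aestronglyMeasurable (ae_of_all _ fun x => ?_)
    rw [Real.norm_of_nonneg (hη.2 x).1, Real.norm_of_nonneg (hind.2 x).1]
    exact (hη.2 x).2
  have hηK : hηm.toLp η ∈ K := by
    rw [hKiff]
    filter_upwards [hηm.coeFn_toLp] with x hx
    rw [hx]
    exact hη.2 x
  have h1 := hmin _ hηK
  have h2 : cl U (hηm.toLp η) =ᵐ[volume] η := (hcleq _ hηK).trans hηm.coeFn_toLp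
  have h3 : En κ (cl U (hηm.toLp η)) = En κ η := En_congr h2
  exact h1.trans h3.le

end Pool.Agent.P8H73.HS
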