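import Pool.Agent.P8H73.HS.Min

/-!
# The obstacle problem for potentials
-/

set_option autoImplicit false

namespace Pool.Agent.P8H73.HS

open MeasureTheory Set Filter Topology Metric
open scoped RealInnerProductSpace ENNReal
open Pool.Agent.TH791.Cl Pool.Agent.TH791.Nw Pool.Agent.R999.Pot Pool.Agent.R999.MinP

lemma el_ineq {U : Set E3} (hb : Bornology.IsBounded U) {κ : ℝ} {ρ : E3 → ℝ} (hρ : Adm U ρ)
    (hmin : ∀ η : E3 → ℝ, Adm U η → En κ ρ ≤ En κ η) {η : E3 → ℝ} (hη : Adm U η) :
    0 ≤ ∫ x, (η x - ρ x) * (pot ρ x - κ) := by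
  have hρn := (hρ.dn hb).nice
  have hηn := (hη.dn hb).nice
  set A := ∫ x, (η x - ρ x) * (pot ρ x - κ) with hA
  set D := ∫ x, (η x - ρ x) * pot (fun x => η x - ρ x) x with hD
  by_contra hneg
  push Not at hneg
  have hD0 : 0 ≤ D := pd_pos (pd_nice η ρ hηn hρn)
  have h : ∀ t : ℝ, 0 < t → t ≤ 1 → 0 ≤ t * A + 1/2 * t ^ 2 * D := by
    intro t ht0 ht1
    have hadm : Adm U (fun x => ρ x + t * (η x - ρ x)) := by
      refine ⟨hρ.1.add ((hη.1.sub hρ.1).const_mul t), fun x => ?_⟩
      have h1 := hρ.2 x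
      have h2 := hη.2 x
      constructor
      · nlinarith [h1.1, h2.1]
      · nlinarith [h1.2, h2.2]
    have h1 := hmin _ hadm
    rw [En_seg hρn hηn t] at h1
    linarith
  set t : ℝ := min 1 (-A / (D + 1)) with ht
  have ht0 : 0 < t := lt_min one_pos (div_pos (by linarith) (by linarith))
  have h1 := h t ht0 (min_le_left _ _)
  have h2 : t ≤ -A / (D + 1) := min_le_right _ _
  rw [le_div_iff₀ (by linarith)] at h2
  have h3 : t * A + 1/2 * t ^ 2 * D = t * (A + 1/2 * (t * D)) := by ring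
  rw [h3] at h1
  have h4 : 0 ≤ A + 1/2 * (t * D) := by
    by_contra hc
    push Not at hc
    nlinarith
  nlinarith [mul_nonneg ht0.le hD0]

/-- **The obstacle problem.** -/
theorem exists_obst {U : Set E3} (hU : MeasurableSet U) (hb : Bornology.IsBounded U) {κ : ℝ}
    (hκ : 0 ≤ κ) :
    ∃ ρ : E3 → ℝ, Adm U ρ ∧ (∀ x, pot ρ x ≤ κ) ∧ ∀ᵐ x, x ∈ U → pot ρ x < κ → ρ x = 1 := by
  obtain ⟨ρ, hρ, hmin⟩ := exists_adm_min hU hb κ
  have hρn := (hρ.dn hb).nice
  have hq := pot_cont hρn
  have hind : Adm U (U.indicator fun _ => (1:ℝ)) :=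
    ⟨measurable_const.indicator hU, fun x => ⟨indicator_nonneg (fun _ _ => zero_le_one) _, le_rfl⟩⟩
  have hint : ∀ η : E3 → ℝ, Adm U η → Integrable fun x => (η x - ρ x) * (pot ρ x - κ) := by
    intro η hη
    have hηn := (hη.dn hb).nice
    have hd := pd_nice η ρ hηn hρn
    have h1 := (pd_int _ ρ hd hρn).sub (hd.2.1.const_mul κ)
    refine h1.congr (ae_of_all _ fun x => ?_)
    simp only [Pi.sub_apply]
    ring
  -- first variation
  have hm1 : MeasurableSet {x | pot ρ x < κ} := measurableSet_lt hq.measurable measurable_const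
  have hm2 : MeasurableSet {x | κ < pot ρ x} := measurableSet_lt measurable_const hq.measurable
  classical
  have ha1 : Adm U (fun x => if pot ρ x < κ then U.indicator (fun _ => (1:ℝ)) x else ρ x) := by
    refine ⟨Measurable.ite hm1 hind.1 hρ.1, fun x => ?_⟩
    by_cases hx : pot ρ x < κ
    · simp only [hx, if_true]; exact hind.2 x
    · simp only [hx, if_false]; exact hρ.2 x
  have ha2 : Adm U (fun x => if κ < pot ρ x then 0 else ρ x) := by
    refine ⟨Measurable.ite hm2 measurable_const hρ.1, fun x => ?_⟩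
    by_cases hx : κ < pot ρ x
    · simp only [hx, if_true]; exact ⟨le_rfl, (hind.2 x).1⟩
    · simp only [hx, if_false]; exact hρ.2 x
  have key : ∀ η : E3 → ℝ, Adm U η → (∀ x, (η x - ρ x) * (pot ρ x - κ) ≤ 0) →
      ∀ᵐ x, (η x - ρ x) * (pot ρ x - κ) = 0 := by
    intro η hη hle
    have h1 := el_ineq hb hρ hmin hη
    have h2 : ∫ x, -((η x - ρ x) * (pot ρ x - κ)) = 0 := by
      have h3 : 0 ≤ ∫ x, -((η x - ρ x) * (pot ρ x - κ)) :=
        integral_nonneg fun x => neg_nonneg.2 (hle x)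
      rw [integral_neg] at h3 ⊢
      linarith
    have h4 := (integral_eq_zero_iff_of_nonneg (fun x => neg_nonneg.2 (hle x)) (hint η hη).neg).1 h2
    filter_upwards [h4] with x hx
    have : -((η x - ρ x) * (pot ρ x - κ)) = 0 := hx
    linarith
  have k1 := key _ ha1 (fun x => by
    by_cases hx : pot ρ x < κ
    · simp only [hx, if_true]
      exact mul_nonpos_of_nonneg_of_nonpos (sub_nonneg.2 (hρ.2 x).2) (by linarith)
    · simp only [hx, if_false]; simp)
  have k2 := key _ ha2 (fun x => by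
    by_cases hx : κ < pot ρ x
    · simp only [hx, if_true]
      have := (hρ.2 x).1
      nlinarith
    · simp only [hx, if_false]; simp)
  refine ⟨ρ, hρ, fun x => ?_, ?_⟩
  · have h1 := min_pr' (nice_neg hρn) (c := -κ) (by linarith) (by
      filter_upwards [k2] with y hy hlt
      rw [pot_neg] at hlt
      have hlt' : κ < pot ρ y := by linarith
      simp only [hlt', if_true] at hy
      have h2 : pot ρ y - κ ≠ 0 := by linarith
      have h3 : 0 - ρ y = 0 := (mul_eq_zero.1 hy).resolve_right h2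
      linarith) x
    rw [pot_neg] at h1
    linarith
  · filter_upwards [k1] with x hx hxU hlt
    simp only [hlt, if_true] at hx
    rw [indicator_of_mem hxU] at hx
    have h2 : pot ρ x - κ ≠ 0 := by linarith
    have h3 : 1 - ρ x = 0 := (mul_eq_zero.1 hx).resolve_right h2
    linarith

/-- a nonnegative density vanishes where its potential is locally constant -/
lemma zero_of_const {G : E3 → ℝ} (hG : Nice G) (hG0 : ∀ x, 0 ≤ G x) (x0 : E3) {s : ℝ} (hs : 0 < s)
    (h : ∀ x ∈ ball x0 s, pot G x = pot G x0) : ∀ᵐ y, y ∈ ball x0 s → G y = 0 := by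
  obtain ⟨B, hB⟩ := nice_bound G hG
  have hgb := gb_nice s x0
  have h1 : ∫ x, gb s x0 x * pot G x = pot G x0 := by
    have h2 : ∀ x, gb s x0 x * pot G x = gb s x0 x * pot G x0 := by
      intro x
      by_cases hx : x ∈ ball x0 s
      · rw [h x hx]
      · unfold gb
        rw [indicator_of_notMem hx]; simp
    simp_rw [h2]
    rw [integral_mul_const, gb_total hs, one_mul]
  rw [pd_swap _ _ hgb hG] at h1
  have h3 : ∀ x, G x * pot (gb s x0) x = G x * Gf s ‖x0 - x‖ := by
    intro x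
    rw [pot_gb hs, norm_sub_rev]
  have i1 : Integrable fun x => G x * Gf s ‖x0 - x‖ := by
    have := pd_int _ _ hG hgb
    simpa only [h3] using this
  simp_rw [h3] at h1
  have h4 : ∫ x, (G x / ‖x0 - x‖ - G x * Gf s ‖x0 - x‖) = 0 := by
    rw [integral_sub (hB x0).1 i1, h1]
    unfold pot
    rw [sub_self]
  have hne : ∀ᵐ y : E3, y ≠ x0 := by
    have h := (Set.countable_singleton x0).ae_notMem (volume : Measure E3)
    filter_upwards [h] with y hy
    simpa using hy
  have h5 : ∀ y, G y / ‖x0 - y‖ - G y * Gf s ‖x0 - y‖ = G y * Yf s ‖x0 - y‖ := by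
    intro y
    unfold Yf
    ring
  simp_rw [h5] at h4
  have i2 : Integrable fun y => G y * Yf s ‖x0 - y‖ := by
    have := (hB x0).1.sub i1
    refine this.congr (ae_of_all _ fun y => ?_)
    simp only [Pi.sub_apply]
    exact h5 y
  have h6 : 0 ≤ᵐ[volume] fun y => G y * Yf s ‖x0 - y‖ := by
    filter_upwards [hne] with y hy
    exact mul_nonneg (hG0 y) (Yf_nonneg hs (norm_pos_iff.2 (sub_ne_zero.2 hy.symm)))
  have h7 := (integral_eq_zero_iff_of_nonneg_ae h6 i2).1 h4
  filter_upwards [h7, hne] with y hy hy0 hyb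
  have h8 : G y * Yf s ‖x0 - y‖ = 0 := hy
  have hr : 0 < ‖x0 - y‖ := norm_pos_iff.2 (sub_ne_zero.2 hy0.symm)
  have hrs : ‖x0 - y‖ < s := by
    rw [mem_ball, dist_eq_norm, norm_sub_rev] at hyb
    exact hyb
  have h9 : 0 < Yf s ‖x0 - y‖ := by
    rw [Yf_eq hs hr hrs]
    have : 0 < s - ‖x0 - y‖ := by linarith
    positivity
  exact (mul_eq_zero.1 h8).resolve_right h9.ne'

lemma pot_ball {R : ℝ} (hR : 0 < R) (a x : E3) :
    pot ((ball a R).indicator fun _ => (1:ℝ)) x = 4/3*Real.pi*R^3 * Gf R ‖x - a‖ := by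
  have hpi := Real.pi_pos
  have h : (fun y => (4/3*Real.pi*R^3) * gb R a y) = (ball a R).indicator fun _ => (1:ℝ) := by
    funext y
    unfold gb
    by_cases hy : y ∈ ball a R
    · rw [indicator_of_mem hy, indicator_of_mem hy]
      exact mul_inv_cancel₀ (by positivity)
    · rw [indicator_of_notMem hy, indicator_of_notMem hy, mul_zero]
  rw [← h, pot_mul, pot_gb hR]

end Pool.Agent.P8H73.HS
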