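import Pool.Agent.P8H73.HS.Comp

/-!
# The contact set is star-shaped about every point of a small ball
-/

set_option autoImplicit false

namespace Pool.Agent.P8H73.HS

open MeasureTheory Set Filter Topology Metric
open scoped RealInnerProductSpace ENNReal
open Pool.Agent.TH791.Cl Pool.Agent.TH791.Nw Pool.Agent.R999.Pot Pool.Agent.R999.MinP

variable {ρ : E3 → ℝ}

lemma norm_dil_le (x0 x : E3) {s : ℝ} (h0 : 0 ≤ s) (h1 : s ≤ 1) :
    ‖dil x0 s x‖ ≤ s * ‖x‖ + (1 - s) * ‖x0‖ := by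
  have h : dil x0 s x = s • x + (1 - s) • x0 := by unfold dil; module
  rw [h]
  refine (norm_add_le _ _).trans ?_
  rw [norm_smul, norm_smul, Real.norm_of_nonneg h0, Real.norm_of_nonneg (by linarith : 0 ≤ 1 - s)]

lemma norm_dil_ge (x0 x : E3) {s : ℝ} (h0 : 0 ≤ s) (h1 : s ≤ 1) :
    s * ‖x‖ - (1 - s) * ‖x0‖ ≤ ‖dil x0 s x‖ := by
  have h : s • x = dil x0 s x - (1 - s) • x0 := by unfold dil; module
  have h2 := norm_sub_le (dil x0 s x) ((1 - s) • x0)
  rw [← h, norm_smul, norm_smul, Real.norm_of_nonneg h0,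
    Real.norm_of_nonneg (by linarith : 0 ≤ 1 - s)] at h2
  linarith

lemma Sol.bdry (h : Sol ρ) {x0 x : E3} (hx0 : ‖x0‖ ≤ 1/100) (hx : ‖x‖ = 3/4) {s : ℝ}
    (hs0 : 9/10 ≤ s) (hs1 : s ≤ 1) :
    kap - pot ρ (dil x0 s x) ≤ s ^ 2 * (kap - pot ρ x) := by
  have hpi := Real.pi_pos
  set y := dil x0 s x with hy
  have hle := norm_dil_le x0 x (by linarith : 0 ≤ s) hs1
  have hge := norm_dil_ge x0 x (by linarith : 0 ≤ s) hs1
  rw [hx] at hle hge
  have hn0 := norm_nonneg x0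
  have hy1 : ‖y‖ ≤ 3/4 - 37/50 * (1 - s) := by
    have : (1 - s) * ‖x0‖ ≤ (1 - s) * (1/100) := mul_le_mul_of_nonneg_left hx0 (by linarith)
    linarith
  have hy2 : 3/5 ≤ ‖y‖ := by
    have : (1 - s) * ‖x0‖ ≤ (1 - s) * (1/100) := mul_le_mul_of_nonneg_left hx0 (by linarith)
    linarith
  have hxy : ‖y - x‖ ≤ (1 - s) * (76/100) := by
    have e : y - x = (1 - s) • (x0 - x) := by rw [hy]; unfold dil; module
    rw [e, norm_smul, Real.norm_of_nonneg (by linarith : 0 ≤ 1 - s)]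
    apply mul_le_mul_of_nonneg_left _ (by linarith)
    calc ‖x0 - x‖ ≤ ‖x0‖ + ‖x‖ := norm_sub_le _ _
      _ ≤ 76/100 := by rw [hx]; linarith
  have e1 := h.dd_eq y
  have e2 := h.dd_eq x
  have w1 := pot_rho0_mid (x := y) (by linarith) (by linarith)
  have w2 := pot_rho0_mid (x := x) (by linarith) (by linarith)
  have m1 : Wr ‖y‖ ≤ Wr (3/4 - 37/50 * (1 - s)) := Wr_mono (by linarith) hy1
  have m2 := Wr_num (t := 1 - s) (by linarith) (by linarith)
  have m3 : Wr ‖x‖ = 7/72 := by rw [hx]; unfold Wr; norm_num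
  have l1 := h.dd_lip (x := y) (y := x) hy2 (by linarith) (by linarith) (by linarith) (by linarith)
  have l2 := h.dd_le x
  have l3 := h.dd_nonneg x
  have m4 : Real.pi * Wr ‖y‖ ≤ Real.pi * (s ^ 2 * (7/72) - 13/50 * (1 - s)) := by
    apply mul_le_mul_of_nonneg_left _ hpi.le
    have : (1 - (1 - s)) ^ 2 = s ^ 2 := by ring
    rw [this] at m2
    linarith
  have l4 : Real.pi / 200 * 30 * ‖y - x‖ ≤ Real.pi / 200 * 30 * ((1 - s) * (76/100)) :=
    mul_le_mul_of_nonneg_left hxy (by positivity)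
  have l5 : (1 - s ^ 2) * dd ρ x ≤ (2 * (1 - s)) * (Real.pi / 200) := by
    apply mul_le_mul _ l2 l3 (by linarith)
    nlinarith
  have l6 : dd ρ y - s ^ 2 * dd ρ x ≤ Real.pi * (13/50 * (1 - s)) := by
    have : 0 ≤ Real.pi * (1 - s) := mul_nonneg hpi.le (by linarith)
    nlinarith
  rw [m3] at w2
  have e3 : kap - pot ρ y = (kap - pot rho0 y) + dd ρ y := by rw [e1]; ring
  have e4 : kap - pot ρ x = (kap - pot rho0 x) + dd ρ x := by rw [e2]; ring
  rw [e3, e4, w1, w2]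
  nlinarith

/-- the contact set -/
def Con (ρ : E3 → ℝ) : Set E3 := {x | pot ρ x = kap}

lemma Sol.con_closed (h : Sol ρ) : IsClosed (Con ρ) :=
  isClosed_eq (pot_cont h.dn.nice) continuous_const

lemma Sol.con_norm (h : Sol ρ) {x : E3} (hx : x ∈ Con ρ) : ‖x‖ ≤ 1/2 := by
  by_contra hc
  push Not at hc
  have h1 : pot ρ x < kap := h.lt hc
  have h2 : pot ρ x = kap := hx
  linarith

lemma Sol.star_step (h : Sol ρ) {x0 x : E3} (hx0 : ‖x0‖ ≤ 1/100) (hx : x ∈ Con ρ) {s : ℝ}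
    (hs0 : 9/10 ≤ s) (hs1 : s ≤ 1) : dil x0 s x ∈ Con ρ := by
  have hs : 0 < s := by linarith
  have hdn := h.dn.dil x0 hs
  have hnice := (h.dn.sub hdn).nice
  have hpot : ∀ z, pot (fun z => ρ z - ρ (dil x0 s z)) z = pot ρ z - pot ρ (dil x0 s z) / s ^ 2 := by
    intro z
    rw [pot_sub h.dn.nice hdn.nice, pot_dil ρ x0 hs]
  have h1 := max_loc hnice (kap / s ^ 2 - kap) (R := 3/4) (fun z hz => by
      rw [hpot]
      have h2 := h.bdry hx0 hz hs0 hs1
      have h3 : (kap - pot ρ (dil x0 s z)) / s ^ 2 ≤ kap - pot ρ z := by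
        rw [div_le_iff₀ (by positivity)]
        linarith
      rw [sub_div] at h3
      linarith) (by
      filter_upwards [dil_ae h.full x0 hs] with z hz hzR hpos
      rw [hpot] at hpos
      have h2 : s ^ 2 * (kap - pot ρ z) < kap - pot ρ (dil x0 s z) := by
        have h3 : kap - pot ρ z < (kap - pot ρ (dil x0 s z)) / s ^ 2 := by
          rw [sub_div]
          linarith
        rw [lt_div_iff₀ (by positivity)] at h3
        linarith
      have h4 : 0 ≤ s ^ 2 * (kap - pot ρ z) := mul_nonneg (sq_nonneg _) (by linarith [h.le z])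
      have h5 := norm_dil_le x0 z hs.le hs1
      have h6 : s * ‖z‖ ≤ s * (3/4) := mul_le_mul_of_nonneg_left hzR.le hs.le
      have h7 : (1 - s) * ‖x0‖ ≤ (1 - s) * (1/100) := mul_le_mul_of_nonneg_left hx0 (by linarith)
      have h8 : dil x0 s z ∈ dom := mem_dom (by linarith)
      rw [hz h8 (by linarith)]
      linarith [h.le_one z]) (x1 := x) (by linarith [h.con_norm hx])
  rw [hpot] at h1
  have hx' : pot ρ x = kap := hx
  rw [hx'] at h1
  have h2 : kap / s ^ 2 ≤ pot ρ (dil x0 s x) / s ^ 2 := by linarith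
  rw [div_le_div_iff_of_pos_right (by positivity)] at h2
  exact le_antisymm (h.le _) h2

lemma dil_dil (x0 x : E3) (s t : ℝ) : dil x0 s (dil x0 t x) = dil x0 (s * t) x := by
  unfold dil
  module

lemma Sol.star_pow (h : Sol ρ) {x0 x : E3} (hx0 : ‖x0‖ ≤ 1/100) (hx : x ∈ Con ρ) {s : ℝ}
    (hs0 : 9/10 ≤ s) (hs1 : s ≤ 1) (n : ℕ) : dil x0 (s ^ n) x ∈ Con ρ := by
  induction n with
  | zero =>
    have : dil x0 (s ^ 0) x = x := by unfold dil; simp
    rw [this]; exact hx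
  | succ n ih =>
    have := h.star_step hx0 ih hs0 hs1
    rw [dil_dil] at this
    rwa [pow_succ']

lemma Sol.star_pos (h : Sol ρ) {x0 x : E3} (hx0 : ‖x0‖ ≤ 1/100) (hx : x ∈ Con ρ) {τ : ℝ}
    (h0 : 0 < τ) (h1 : τ ≤ 1) : dil x0 τ x ∈ Con ρ := by
  have hlim : Tendsto (fun n : ℕ => τ ^ (1 / ((n:ℝ) + 1))) atTop (𝓝 1) := by
    have h2 : Tendsto (fun n : ℕ => τ ^ (1 / ((n:ℝ) + 1))) atTop (𝓝 (τ ^ (0:ℝ))) :=
      tendsto_const_nhds.rpow tendsto_one_div_add_atTop_nhds_zero_nat (Or.inl h0.ne')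
    rwa [Real.rpow_zero] at h2
  obtain ⟨n, hn⟩ := (hlim.eventually (lt_mem_nhds (show (9/10:ℝ) < 1 by norm_num))).exists
  have h3 : τ ^ (1 / ((n:ℝ) + 1)) ≤ 1 := Real.rpow_le_one h0.le h1 (by positivity)
  have h4 := h.star_pow hx0 hx hn.le h3 (n + 1)
  have h5 : (τ ^ (1 / ((n:ℝ) + 1))) ^ (n + 1) = τ := by
    rw [← Real.rpow_natCast, ← Real.rpow_mul h0.le]
    have : 1 / ((n:ℝ) + 1) * ((n + 1 : ℕ) : ℝ) = 1 := by
      push_cast
      field_simp
    rw [this, Real.rpow_one]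
  rwa [h5] at h4

lemma Sol.con_nonempty (h : Sol ρ) : (Con ρ).Nonempty := by
  by_contra hc
  rw [not_nonempty_iff_eq_empty] at hc
  have hlt : ∀ x, pot ρ x < kap := fun x => by
    refine lt_of_le_of_ne (h.le x) fun he => ?_
    have : x ∈ Con ρ := he
    rw [hc] at this
    exact this
  have h1 : (fun x => ρ x + capd x) =ᵐ[volume] (ball (0:E3) 1).indicator fun _ => (1:ℝ) := by
    filter_upwards [h.full] with x hx
    unfold capd
    by_cases hd : x ∈ dom
    · rw [hx hd (hlt x), indicator_of_mem hd]; ring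
    · rw [h.zero hd, indicator_of_notMem hd]; ring
  have h2 := pot_congr h1 0
  rw [pot_add h.dn.nice capd_dn.nice, pot_ball one_pos] at h2
  have h3 := capd_small 0
  have h4 := hlt 0
  unfold Gf at h2
  rw [sub_zero, norm_zero, if_pos one_pos] at h2
  unfold kap at h4
  have := Real.pi_pos
  linarith

lemma Sol.con_center (h : Sol ρ) {x0 : E3} (hx0 : ‖x0‖ ≤ 1/100) : x0 ∈ Con ρ := by
  obtain ⟨x, hx⟩ := h.con_nonempty
  have h1 : Tendsto (fun n : ℕ => dil x0 (1 / ((n:ℝ) + 1)) x) atTop (𝓝 (x0 + (0:ℝ) • (x - x0))) := by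
    unfold dil
    exact tendsto_const_nhds.add (tendsto_one_div_add_atTop_nhds_zero_nat.smul_const _)
  rw [zero_smul, add_zero] at h1
  refine h.con_closed.mem_of_tendsto h1 (Eventually.of_forall fun n => ?_)
  refine h.star_pos hx0 hx (by positivity) ?_
  rw [div_le_one (by positivity)]
  have : (0:ℝ) ≤ n := Nat.cast_nonneg n
  linarith

/-- The contact set is star-shaped about every point of a small ball. -/
theorem Sol.star (h : Sol ρ) {x0 x : E3} (hx0 : ‖x0‖ ≤ 1/100) (hx : x ∈ Con ρ) {τ : ℝ}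
    (h0 : 0 ≤ τ) (h1 : τ ≤ 1) : τ • x + (1 - τ) • x0 ∈ Con ρ := by
  have e : τ • x + (1 - τ) • x0 = dil x0 τ x := by unfold dil; module
  rw [e]
  rcases h0.eq_or_lt with rfl | h0
  · have : dil x0 0 x = x0 := by unfold dil; simp
    rw [this]
    exact h.con_center hx0
  · exact h.star_pos hx0 hx h0 h1

end Pool.Agent.P8H73.HS
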